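import Pool.Agent.H48R3.CP.Moll

set_option autoImplicit false

namespace Pool.Agent.H48R3.CP

open Set Filter Topology MeasureTheory Metric

variable {d : ℕ}

/-- the open cube -/
def U (d : ℕ) : Set (Fin d → ℝ) := {x : Fin d → ℝ | ∀ i, 0 < x i ∧ x i < 1}

theorem U_sub : U d ⊆ Icc 0 1 := fun _ hx => ⟨fun i => (hx i).1.le, fun i => (hx i).2.le⟩

theorem int_ind (E : Set (Fin d → ℝ)) (hE : MeasurableSet E) (hEU : E ⊆ U d) :
    Integrable (E.indicator (fun _ => (1:ℝ))) := by
  rw [integrable_indicator_iff hE]
  refine integrableOn_const ?_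
  have : volume E ≤ volume (Icc (0 : Fin d → ℝ) 1) := measure_mono (hEU.trans U_sub)
  rw [vol_Icc] at this
  exact ne_top_of_le_ne_top ENNReal.one_ne_top this

/-- the normalized bump -/
noncomputable def eta (d : ℕ) (δ : ℝ) (hδ : 0 < δ) : (Fin d → ℝ) → ℝ :=
  (bump d δ hδ).normed volume

theorem eta_contDiff (δ : ℝ) (hδ : 0 < δ) : ContDiff ℝ 1 (eta d δ hδ) := by
  exact_mod_cast (bump d δ hδ).contDiff_normed (n := 1) (μ := volume)

theorem eta_supp (δ : ℝ) (hδ : 0 < δ) : HasCompactSupport (eta d δ hδ) :=
  (bump d δ hδ).hasCompactSupport_normed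

theorem testfield (E : Set (Fin d → ℝ)) (hE : MeasurableSet E) (hEU : E ⊆ U d) (δ : ℝ)
    (hδ : 0 < δ) (hδ2 : δ < 1 / 8) :
    ∃ φ : (Fin d → ℝ) → (Fin d → ℝ),
      ContDiff ℝ 1 φ ∧ HasCompactSupport φ ∧ tsupport φ ⊆ U d ∧
      (∀ x, ∑ i, (φ x i) ^ 2 ≤ 1) ∧
      ∫ x in E, (∑ i, fderiv ℝ (fun y => φ y i) x (Pi.single i (1 : ℝ) : Fin d → ℝ)) =
        ∫ y in Icc (fun _ : Fin d => 2 * δ) (fun _ => 1 - 2 * δ),
          √(∑ i, D (conv (E.indicator (fun _ => (1:ℝ))) (eta d δ hδ)) i y ^ 2) := by
  set η := eta d δ hδ with hηdef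
  have hη := eta_contDiff (d := d) δ hδ
  have hηc := eta_supp (d := d) δ hδ
  rw [← hηdef] at hη hηc
  have hη0 : ∀ x, 0 ≤ η x := fun x => (bump d δ hδ).nonneg_normed x
  have hη1 : ∫ x, η x = 1 := (bump d δ hδ).integral_normed
  have hηeven : ∀ x, η (-x) = η x := fun x => (bump d δ hδ).normed_neg x
  have hηsupp : Function.support η = ball 0 δ := (bump d δ hδ).support_normed_eq
  set u : (Fin d → ℝ) → ℝ := E.indicator (fun _ => (1:ℝ)) with hu
  have hui : Integrable u := int_ind E hE hEU
  set g := conv u η with hg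
  have hgd : ContDiff ℝ 1 g := contDiff_conv u η hui.locallyIntegrable hη hηc
  have hDc : ∀ i, Continuous (D g i) := fun i => continuous_D g hgd i
  set Q' : Set (Fin d → ℝ) := Icc (fun _ => 2 * δ) (fun _ => 1 - 2 * δ) with hQ'
  set N : (Fin d → ℝ) → ℝ := fun y => √(∑ i, D g i y ^ 2) with hN
  have hNc : Continuous N := by
    show Continuous fun y => √(∑ i, D g i y ^ 2)
    fun_prop
  have hN2 : ∀ y, N y ^ 2 = ∑ i, D g i y ^ 2 := fun y =>
    Real.sq_sqrt (Finset.sum_nonneg fun i _ => sq_nonneg _)
  have hDN : ∀ i y, |D g i y| ≤ N y := by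
    intro i y
    apply Real.abs_le_sqrt
    exact Finset.single_le_sum (f := fun i => D g i y ^ 2) (fun i _ => sq_nonneg _)
      (Finset.mem_univ i)
  set ψ : Fin d → (Fin d → ℝ) → ℝ := fun i => Q'.indicator (fun y => -(D g i y / N y)) with hψ
  have hψi : ∀ i, Integrable (ψ i) := by
    intro i
    rw [hψ, integrable_indicator_iff measurableSet_Icc]
    have hfin : volume Q' ≠ ⊤ := (isCompact_Icc.measure_lt_top).ne
    have hone : IntegrableOn (fun _ : Fin d → ℝ => (1:ℝ)) Q' := integrableOn_const hfin
    refine Integrable.mono' hone ?_ ?_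
    · exact ((hDc i).measurable.div hNc.measurable).neg.aestronglyMeasurable
    · refine Eventually.of_forall fun y => ?_
      rw [norm_neg, Real.norm_eq_abs, abs_div, abs_of_nonneg (Real.sqrt_nonneg _ : 0 ≤ N y)]
      exact div_le_one_of_le₀ (hDN i y) (Real.sqrt_nonneg _)
  have hψ1 : ∀ y, ∑ i, ψ i y ^ 2 ≤ 1 := by
    intro y
    by_cases hy : y ∈ Q'
    · simp only [hψ, indicator_of_mem hy, neg_sq, div_pow]
      rw [← Finset.sum_div, ← hN2]
      exact div_self_le_one _
    · simp only [hψ, indicator_of_notMem hy]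
      simp
  have hsupp : Function.support (fun (x : Fin d → ℝ) (i : Fin d) => conv (ψ i) η x) ⊆
      Icc (fun _ => δ) (fun _ => 1 - δ) := by
    intro x hx
    rw [Function.mem_support] at hx
    by_contra hxn
    apply hx
    funext i
    show conv (ψ i) η x = 0
    unfold conv
    rw [integral_eq_zero_of_ae]
    refine Eventually.of_forall fun y => ?_
    show ψ i y * η (x - y) = 0
    by_cases hy : y ∈ Q'
    · have : η (x - y) = 0 := by
        by_contra hne
        have hm : x - y ∈ Function.support η := hne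
        rw [hηsupp, mem_ball_zero_iff] at hm
        apply hxn
        have hc : ∀ j, |x j - y j| < δ := fun j => lt_of_le_of_lt (norm_le_pi_norm (x - y) j) hm
        constructor
        · intro j
          have h1 := abs_lt.1 (hc j)
          have h2 := hy.1 j
          simp only at h2 ⊢
          linarith
        · intro j
          have h1 := abs_lt.1 (hc j)
          have h2 := hy.2 j
          simp only at h2 ⊢
          linarith
      rw [this, mul_zero]
    · simp only [hψ, indicator_of_notMem hy, zero_mul]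
  refine ⟨fun x i => conv (ψ i) η x, ?_, ?_, ?_, ?_, ?_⟩
  · rw [contDiff_pi]
    exact fun i => contDiff_conv (ψ i) η (hψi i).locallyIntegrable hη hηc
  · exact HasCompactSupport.of_support_subset_isCompact isCompact_Icc hsupp
  · refine (closure_minimal hsupp isClosed_Icc).trans ?_
    intro x hx i
    have h1 := hx.1 i
    have h2 := hx.2 i
    simp only at h1 h2
    constructor <;> linarith
  · intro x
    exact avg_norm ψ η hψi hψ1 hη.continuous hηc hη0 hη1 x
  · -- the integral
    have hKc : ∀ i, Continuous (D η i) := fun i => continuous_D η hη i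
    have hKs : ∀ i, HasCompactSupport (D η i) := by
      intro i
      have h1 : HasCompactSupport (fderiv ℝ η) := hηc.fderiv ℝ
      exact h1.comp_left (g := fun A : (Fin d → ℝ) →L[ℝ] ℝ => A (Pi.single i 1)) (by simp)
    have hodd : ∀ i x, D η i (-x) = - D η i x := fun i x => D_odd η hη hηeven i x
    have e1 : ∀ x i, fderiv ℝ (fun y => conv (ψ i) η y) x (Pi.single i (1 : ℝ) : Fin d → ℝ) =
        conv (ψ i) (D η i) x := fun x i =>
      D_conv (ψ i) η (hψi i).locallyIntegrable hη hηc i x
    simp only [e1]
    have hconvc : ∀ i, Continuous (fun x => conv (ψ i) (D η i) x) := by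
      intro i
      have : (fun x => conv (ψ i) (D η i) x) = D (conv (ψ i) η) i := by
        funext x; exact (e1 x i).symm
      rw [this]
      exact continuous_D _ (contDiff_conv (ψ i) η (hψi i).locallyIntegrable hη hηc) i
    have hEle : volume E ≤ 1 := by
      have : volume E ≤ volume (Icc (0 : Fin d → ℝ) 1) := measure_mono (hEU.trans U_sub)
      rwa [vol_Icc] at this
    have hio : ∀ i, IntegrableOn (fun x => conv (ψ i) (D η i) x) E := by
      intro i
      have h1 : IntegrableOn (fun x => conv (ψ i) (D η i) x) (Icc (0 : Fin d → ℝ) 1) :=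
        (hconvc i).continuousOn.integrableOn_compact isCompact_Icc
      exact h1.mono_set (hEU.trans U_sub)
    rw [integral_finsetSum _ fun i _ => hio i]
    have e2 : ∀ i, ∫ x in E, conv (ψ i) (D η i) x = ∫ y in Q', D g i y * (D g i y / N y) := by
      intro i
      obtain ⟨C, hC⟩ := (hKc i).bounded_above_of_compact_support (hKs i)
      have h1 := swap u (ψ i) (D η i) hui (hψi i) (hKc i) C hC (hodd i)
      have h2 : ∫ x in E, conv (ψ i) (D η i) x = ∫ x, u x * conv (ψ i) (D η i) x := by
        rw [← integral_indicator hE]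
        congr 1
        funext x
        by_cases hx : x ∈ E <;> simp [hu, hx]
      rw [h2, h1, ← integral_indicator (show MeasurableSet Q' from measurableSet_Icc), ← integral_neg]
      congr 1
      funext y
      rw [← D_conv u η hui.locallyIntegrable hη hηc i y, ← hg]
      by_cases hy : y ∈ Q'
      · simp only [hψ, indicator_of_mem hy]; ring
      · simp only [hψ, indicator_of_notMem hy]; ring
    simp only [e2]
    rw [← integral_finsetSum]
    · congr 1
      funext y
      have h3 : ∑ i, D g i y * (D g i y / N y) = N y ^ 2 / N y := by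
        rw [hN2, Finset.sum_div]
        congr 1
        funext i
        ring
      rw [h3]
      show N y ^ 2 / N y = N y
      rcases eq_or_ne (N y) 0 with h0 | h0
      · rw [h0]; simp
      · field_simp
    · intro i _
      have hfin : volume Q' ≠ ⊤ := (isCompact_Icc.measure_lt_top).ne
      have hNi : IntegrableOn N Q' := hNc.continuousOn.integrableOn_compact isCompact_Icc
      refine Integrable.mono' hNi ?_ ?_
      · exact ((hDc i).measurable.mul ((hDc i).measurable.div hNc.measurable)).aestronglyMeasurable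
      · refine Eventually.of_forall fun y => ?_
        rw [norm_mul, Real.norm_eq_abs, Real.norm_eq_abs, abs_div,
          abs_of_nonneg (Real.sqrt_nonneg _ : 0 ≤ N y)]
        have h4 : |D g i y| / N y ≤ 1 := div_le_one_of_le₀ (hDN i y) (Real.sqrt_nonneg _)
        calc |D g i y| * (|D g i y| / N y) ≤ |D g i y| * 1 :=
              mul_le_mul_of_nonneg_left h4 (abs_nonneg _)
          _ ≤ N y := by rw [mul_one]; exact hDN i y

end Pool.Agent.H48R3.CP
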