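import Mathlib

set_option autoImplicit false

namespace Pool.Agent.H48R3.CP

open Set Filter Topology

/-- The flat-top comparison profile. -/
noncomputable def J (s y : ℝ) : ℝ := 1 - (max (s - y) 0 / s) ^ 2 - (max (y - (1 - s)) 0 / s) ^ 2

/-- Its derivative. -/
noncomputable def j (s y : ℝ) : ℝ := 2 * max (s - y) 0 / s ^ 2 - 2 * max (y - (1 - s)) 0 / s ^ 2

theorem J_eq (s y : ℝ) (hs : 0 < s) :
    J s y = 1 - ((max (s - y) 0) ^ 2 + (max (y - (1 - s)) 0) ^ 2) / s ^ 2 := by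
  unfold J
  field_simp
  ring

theorem j_eq (s y : ℝ) (hs : 0 < s) :
    j s y = 2 * (max (s - y) 0 - max (y - (1 - s)) 0) / s ^ 2 := by
  unfold j
  field_simp

/-- quadratic upper bound of the numerator -/
theorem num_upper (s x y : ℝ) (hs : 0 < s) (hs2 : s ≤ 1 / 2) :
    (max (s - y) 0) ^ 2 + (max (y - (1 - s)) 0) ^ 2 ≤
      (max (s - x) 0) ^ 2 + (max (x - (1 - s)) 0) ^ 2
        - 2 * (max (s - x) 0 - max (x - (1 - s)) 0) * (y - x) + (y - x) ^ 2 := by
  rcases le_total (s - y) 0 with h1 | h1 <;> rcases le_total (y - (1 - s)) 0 with h2 | h2 <;>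
  rcases le_total (s - x) 0 with h3 | h3 <;> rcases le_total (x - (1 - s)) 0 with h4 | h4 <;>
  simp only [max_eq_left h1, max_eq_right h1, max_eq_left h2, max_eq_right h2, max_eq_left h3,
    max_eq_right h3, max_eq_left h4, max_eq_right h4] <;>
  nlinarith

theorem num_lower (s x y : ℝ) (hs : 0 < s) (hs2 : s ≤ 1 / 2) :
      (max (s - x) 0) ^ 2 + (max (x - (1 - s)) 0) ^ 2
        - 2 * (max (s - x) 0 - max (x - (1 - s)) 0) * (y - x) ≤
      (max (s - y) 0) ^ 2 + (max (y - (1 - s)) 0) ^ 2 := by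
  have h1 : ∀ u v : ℝ, (max u 0) ^ 2 + 2 * max u 0 * (v - u) ≤ (max v 0) ^ 2 := by
    intro u v
    rcases le_total u 0 with h | h <;> rcases le_total v 0 with h' | h' <;>
    simp only [max_eq_left h, max_eq_right h, max_eq_left h', max_eq_right h'] <;>
    nlinarith [sq_nonneg (u - v)]
  have := h1 (s - x) (s - y)
  have := h1 (x - (1 - s)) (y - (1 - s))
  nlinarith

theorem J_le (s x y : ℝ) (hs : 0 < s) (hs2 : s ≤ 1 / 2) :
    J s y ≤ J s x + j s x * (y - x) := by
  rw [J_eq _ _ hs, J_eq _ _ hs, j_eq _ _ hs]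
  have h := num_lower s x y hs hs2
  have h2 : (((max (s - x) 0) ^ 2 + (max (x - (1 - s)) 0) ^ 2
        - 2 * (max (s - x) 0 - max (x - (1 - s)) 0) * (y - x))) / s ^ 2 ≤
      ((max (s - y) 0) ^ 2 + (max (y - (1 - s)) 0) ^ 2) / s ^ 2 := by gcongr
  have h3 : (((max (s - x) 0) ^ 2 + (max (x - (1 - s)) 0) ^ 2
        - 2 * (max (s - x) 0 - max (x - (1 - s)) 0) * (y - x))) / s ^ 2 =
        ((max (s - x) 0) ^ 2 + (max (x - (1 - s)) 0) ^ 2) / s ^ 2
        - 2 * (max (s - x) 0 - max (x - (1 - s)) 0) / s ^ 2 * (y - x) := by ring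
  linarith

theorem le_J (s x y : ℝ) (hs : 0 < s) (hs2 : s ≤ 1 / 2) :
    J s x + j s x * (y - x) - (y - x) ^ 2 / s ^ 2 ≤ J s y := by
  rw [J_eq _ _ hs, J_eq _ _ hs, j_eq _ _ hs]
  have h := num_upper s x y hs hs2
  have h2 : ((max (s - y) 0) ^ 2 + (max (y - (1 - s)) 0) ^ 2) / s ^ 2 ≤
      ((max (s - x) 0) ^ 2 + (max (x - (1 - s)) 0) ^ 2
        - 2 * (max (s - x) 0 - max (x - (1 - s)) 0) * (y - x) + (y - x) ^ 2) / s ^ 2 := by gcongr
  have h3 : ((max (s - x) 0) ^ 2 + (max (x - (1 - s)) 0) ^ 2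
        - 2 * (max (s - x) 0 - max (x - (1 - s)) 0) * (y - x) + (y - x) ^ 2) / s ^ 2 =
        ((max (s - x) 0) ^ 2 + (max (x - (1 - s)) 0) ^ 2) / s ^ 2
        - 2 * (max (s - x) 0 - max (x - (1 - s)) 0) / s ^ 2 * (y - x) + (y - x) ^ 2 / s ^ 2 := by
    ring
  linarith

theorem continuous_J (s : ℝ) : Continuous (J s) := by
  unfold J
  fun_prop

theorem hasDerivAt_J (s x : ℝ) (hs : 0 < s) (hs2 : s ≤ 1 / 2) : HasDerivAt (J s) (j s x) x := by
  rw [hasDerivAt_iff_isLittleO]
  have h1 : (fun x' => J s x' - J s x - (x' - x) • j s x) =O[𝓝 x] fun x' => (x' - x) ^ 2 := by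
    apply Asymptotics.IsBigO.of_bound (1 / s ^ 2)
    filter_upwards with y
    have h1 := J_le s x y hs hs2
    have h2 := le_J s x y hs hs2
    rw [Real.norm_eq_abs, Real.norm_eq_abs, abs_of_nonneg (sq_nonneg (y - x)), abs_le]
    have h3 : 1 / s ^ 2 * (y - x) ^ 2 = (y - x) ^ 2 / s ^ 2 := by ring
    have h4 : 0 ≤ (y - x) ^ 2 / s ^ 2 := by positivity
    rw [h3]
    simp only [smul_eq_mul]
    constructor <;> nlinarith
  refine h1.trans_isLittleO ?_
  have h2 : (fun x' : ℝ => (x' - x) ^ 2) = fun x' => (x' - x) * (x' - x) := by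
    funext y; ring
  rw [h2]
  have h3 : (fun x' : ℝ => x' - x) =o[𝓝 x] (fun _ => (1 : ℝ)) := by
    rw [Asymptotics.isLittleO_one_iff]
    have : Tendsto (fun x' : ℝ => x' - x) (𝓝 x) (𝓝 (x - x)) :=
      (continuous_id.sub continuous_const).tendsto x
    simpa using this
  have h4 := h3.mul_isBigO (Asymptotics.isBigO_refl (fun x' : ℝ => x' - x) (𝓝 x))
  simpa using h4

theorem J_le_one (s y : ℝ) : J s y ≤ 1 := by
  unfold J
  have := sq_nonneg (max (s - y) 0 / s)
  have := sq_nonneg (max (y - (1 - s)) 0 / s)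
  linarith

theorem J_zero (s : ℝ) (hs : 0 < s) (hs2 : s ≤ 1 / 2) : J s 0 = 0 := by
  unfold J
  rw [max_eq_left (by linarith), max_eq_right (by linarith)]
  field_simp
  ring

theorem J_one (s : ℝ) (hs : 0 < s) (hs2 : s ≤ 1 / 2) : J s 1 = 0 := by
  unfold J
  rw [max_eq_right (by linarith), max_eq_left (by linarith)]
  field_simp
  ring

/-- chord inequality: J is above its chords. -/
theorem chord_le (s a b y : ℝ) (hs : 0 < s) (hs2 : s ≤ 1 / 2) (hab : a < b) (hy : y ∈ Icc a b) :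
    J s a + (J s b - J s a) / (b - a) * (y - a) ≤ J s y := by
  have h1 := J_le s y a hs hs2
  have h2 := J_le s y b hs hs2
  have hd : 0 < b - a := by linarith
  have h3 : J s a + (J s b - J s a) / (b - a) * (y - a) =
      (J s a * (b - y) + J s b * (y - a)) / (b - a) := by
    field_simp
    ring
  rw [h3, div_le_iff₀ hd]
  have h4 : J s a * (b - y) ≤ (J s y + j s y * (a - y)) * (b - y) :=
    mul_le_mul_of_nonneg_right h1 (by linarith [hy.2])
  have h5 : J s b * (y - a) ≤ (J s y + j s y * (b - y)) * (y - a) :=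
    mul_le_mul_of_nonneg_right h2 (by linarith [hy.1])
  nlinarith

theorem le_chord (s a b y : ℝ) (hs : 0 < s) (hs2 : s ≤ 1 / 2) (hab : a < b) (hy : y ∈ Icc a b) :
    J s y ≤ J s a + (J s b - J s a) / (b - a) * (y - a) + (y - a) * (b - y) / s ^ 2 := by
  have h1 := le_J s y a hs hs2
  have h2 := le_J s y b hs hs2
  have hd : 0 < b - a := by linarith
  have h3 : J s a + (J s b - J s a) / (b - a) * (y - a) =
      (J s a * (b - y) + J s b * (y - a)) / (b - a) := by
    field_simp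
    ring
  have h4 : (J s y + j s y * (a - y) - (a - y) ^ 2 / s ^ 2) * (b - y) ≤ J s a * (b - y)  :=
    mul_le_mul_of_nonneg_right h1 (by linarith [hy.2])
  have h5 : (J s y + j s y * (b - y) - (b - y) ^ 2 / s ^ 2) * (y - a) ≤ J s b * (y - a) :=
    mul_le_mul_of_nonneg_right h2 (by linarith [hy.1])
  rw [h3]
  have h6 : J s y * (b - a) - (y - a) * (b - y) / s ^ 2 * (b - a) ≤
      J s a * (b - y) + J s b * (y - a) := by
    have h7 : (y - a) * (b - y) / s ^ 2 * (b - a) = (a - y) ^ 2 / s ^ 2 * (b - y) +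
        (b - y) ^ 2 / s ^ 2 * (y - a) := by ring
    nlinarith
  have h8 : J s y - (y - a) * (b - y) / s ^ 2 ≤ (J s a * (b - y) + J s b * (y - a)) / (b - a) := by
    rw [le_div_iff₀ hd]
    linarith
  linarith

theorem J_pos (s y : ℝ) (hs : 0 < s) (hs2 : s ≤ 1 / 2) (h0 : 0 < y) (h1 : y < 1) : 0 < J s y := by
  unfold J
  rcases le_total y s with h | h
  · rw [max_eq_left (by linarith), max_eq_right (by linarith)]
    have : ((s - y) / s) ^ 2 < 1 := by
      rw [sq_lt_one_iff₀ (div_nonneg (by linarith) hs.le), div_lt_one hs]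
      linarith
    simp only [zero_div]
    linarith
  · rw [max_eq_right (by linarith)]
    have : (max (y - (1 - s)) 0 / s) ^ 2 < 1 := by
      rw [sq_lt_one_iff₀ (div_nonneg (le_max_right _ _) hs.le), div_lt_one hs]
      exact max_lt (by linarith) hs
    simp only [zero_div]
    linarith

theorem J_nonneg (s y : ℝ) (hs : 0 < s) (hs2 : s ≤ 1 / 2) (h0 : 0 ≤ y) (h1 : y ≤ 1) :
    0 ≤ J s y := by
  rcases h0.eq_or_lt with h | h
  · rw [← h, J_zero s hs hs2]
  rcases h1.eq_or_lt with h' | h'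
  · rw [h', J_one s hs hs2]
  exact (J_pos s y hs hs2 h h').le

theorem J_flat (s y : ℝ) (h0 : s ≤ y) (h1 : y ≤ 1 - s) : J s y = 1 := by
  unfold J
  rw [max_eq_right (by linarith), max_eq_right (by linarith)]
  simp

theorem J_half (y : ℝ) : J (1 / 2) y = 4 * y * (1 - y) := by
  unfold J
  rcases le_total y (1/2) with h | h
  · rw [max_eq_left (by linarith), max_eq_right (by linarith)]; ring
  · rw [max_eq_right (by linarith), max_eq_left (by linarith)]; ring

theorem J_half_le (s y : ℝ) (hs : 0 < s) (hs2 : s ≤ 1 / 2) (h0 : 0 ≤ y) (h1 : y ≤ 1) :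
    J (1 / 2) y ≤ J s y := by
  rw [J_half]
  rcases le_total y s with h | h
  · unfold J
    rw [max_eq_left (by linarith), max_eq_right (by linarith)]
    have e : 1 - ((s - y) / s) ^ 2 - (0 / s) ^ 2 = y * (2 * s - y) / s ^ 2 := by
      field_simp; ring
    rw [e, le_div_iff₀ (by positivity)]
    have : 0 ≤ 1 - 4 * s ^ 2 := by nlinarith
    have : 0 ≤ y * ((1 - 2 * s) * (2 * s - y - 2 * s * y)) := by
      apply mul_nonneg h0
      apply mul_nonneg (by linarith)
      nlinarith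
    nlinarith
  rcases le_total y (1 - s) with h' | h'
  · rw [J_flat s y h h']
    nlinarith [sq_nonneg (2 * y - 1)]
  · unfold J
    rw [max_eq_right (by linarith), max_eq_left (by linarith)]
    have e : 1 - (0 / s) ^ 2 - ((y - (1 - s)) / s) ^ 2 = (1 - y) * (2 * s - (1 - y)) / s ^ 2 := by
      field_simp; ring
    rw [e, le_div_iff₀ (by positivity)]
    have : 0 ≤ (1 - y) * ((1 - 2 * s) * (2 * s - (1 - y) - 2 * s * (1 - y))) := by
      apply mul_nonneg (by linarith)
      apply mul_nonneg (by linarith)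
      nlinarith
    nlinarith

end Pool.Agent.H48R3.CP
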