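import Pool.Agent.H48R3.CP.J
import Pool.Agent.H48R3.CP.H

set_option autoImplicit false

namespace Pool.Agent.H48R3.CP

open Set Filter Topology MeasureTheory

/-- The chord. -/
noncomputable def L (s a b y : ℝ) : ℝ := J s a + (J s b - J s a) / (b - a) * (y - a)

theorem L_left (s a b : ℝ) : L s a b a = J s a := by simp [L]

theorem L_right (s a b : ℝ) (hab : a < b) : L s a b b = J s b := by
  unfold L
  have : b - a ≠ 0 := by linarith
  field_simp
  ring

theorem continuous_L (s a b : ℝ) : Continuous (L s a b) := by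
  unfold L
  fun_prop

theorem L_conv (s a b y : ℝ) (hab : a < b) :
    L s a b y = (J s a * (b - y) + J s b * (y - a)) / (b - a) := by
  unfold L
  have : b - a ≠ 0 := by linarith
  field_simp
  ring

theorem L_pos (s a b y : ℝ) (hs : 0 < s) (hs2 : s ≤ 1 / 2) (ha : 0 < a) (hab : a < b) (hb : b < 1)
    (hy : y ∈ Icc a b) : 0 < L s a b y := by
  rw [L_conv s a b y hab]
  have h1 := J_pos s a hs hs2 ha (by linarith)
  have h2 := J_pos s b hs hs2 (by linarith) hb
  apply div_pos _ (by linarith)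
  rcases hy.1.eq_or_lt with h | h
  · rw [← h]
    have : 0 < J s a * (b - a) := mul_pos h1 (by linarith)
    linarith
  · have h3 : 0 ≤ J s a * (b - y) := mul_nonneg h1.le (by linarith [hy.2])
    have h4 : 0 < J s b * (y - a) := mul_pos h2 (by linarith)
    linarith

theorem L_le_J (s a b y : ℝ) (hs : 0 < s) (hs2 : s ≤ 1 / 2) (hab : a < b)
    (hy : y ∈ Icc a b) : L s a b y ≤ J s y := chord_le s a b y hs hs2 hab hy

/-- the integrand `√(1-(L/J)²)` -/
noncomputable def rho (s a b y : ℝ) : ℝ := √(1 - (L s a b y / J s y) ^ 2)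

theorem continuousOn_rho (s a b : ℝ) (hs : 0 < s) (hs2 : s ≤ 1 / 2) (ha : 0 < a) (hb : b < 1) :
    ContinuousOn (rho s a b) (Icc a b) := by
  unfold rho
  apply ContinuousOn.sqrt
  apply ContinuousOn.sub continuousOn_const
  apply ContinuousOn.pow
  apply ContinuousOn.div (continuous_L s a b).continuousOn (continuous_J s).continuousOn
  intro y hy
  exact (J_pos s y hs hs2 (by linarith [hy.1]) (by linarith [hy.2])).ne'

/-- level set lower bound -/
theorem level (s a b x r : ℝ) (hs : 0 < s) (hs2 : s ≤ 1 / 2) (ha : 0 < a) (hab : a < b)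
    (hb : b < 1) (hx : x ∈ Icc a b) (hM : 0 < J s x - L s a b x)
    (hr0 : 0 < r) (hr : r < √(1 - (1 - (J s x - L s a b x)) ^ 2)) :
    ENNReal.ofReal (2 * s * √(1 - (1 - (J s x - L s a b x)) / √(1 - r ^ 2))) ≤
      (volume.restrict (Ioc a b)) {y | r < rho s a b y} := by
  set M := J s x - L s a b x with hMdef
  set c := 1 - M with hc
  have hLx := L_pos s a b x hs hs2 ha hab hb hx
  have hJx := J_le_one s x
  have hc0 : 0 < c := by linarith
  have hc1 : c < 1 := by linarith
  have hr2 : r ^ 2 < 1 - c ^ 2 := (Real.lt_sqrt hr0.le).1 hr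
  set τ := √(1 - r ^ 2) with hτ
  have hτ2 : τ ^ 2 = 1 - r ^ 2 := Real.sq_sqrt (by nlinarith)
  have hcτ : c < τ := Real.lt_sqrt_of_sq_lt (by linarith)
  have hτ0 : 0 < τ := by linarith
  have hτ1 : τ < 1 := by nlinarith
  set m := (J s b - J s a) / (b - a) with hm
  have hLd : ∀ y z, L s a b z = L s a b y + m * (z - y) := by
    intro y z
    simp only [L, ← hm]
    ring
  set ψ : ℝ → ℝ := fun y => τ * J s y - L s a b y with hψ
  have hψc : Continuous ψ := ((continuous_J s).const_mul τ).sub (continuous_L s a b)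
  obtain ⟨x0, hx0, hmax⟩ := isCompact_Icc.exists_isMaxOn (nonempty_Icc.2 hab.le) hψc.continuousOn
  have hψx : τ - c ≤ ψ x := by
    show τ - c ≤ τ * J s x - L s a b x
    have : (1 - τ) * J s x ≤ (1 - τ) * 1 := mul_le_mul_of_nonneg_left hJx (by linarith)
    have e : τ - c = τ - 1 + (J s x - L s a b x) := by rw [hc]; ring
    nlinarith
  have hψ0 : τ - c ≤ ψ x0 := hψx.trans (hmax hx)
  have hJa := J_pos s a hs hs2 ha (by linarith)
  have hJb := J_pos s b hs hs2 (by linarith) hb
  have hψa : ψ a < 0 := by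
    show τ * J s a - L s a b a < 0
    rw [L_left]
    nlinarith
  have hψb : ψ b < 0 := by
    show τ * J s b - L s a b b < 0
    rw [L_right s a b hab]
    nlinarith
  have hx0a : a < x0 := by
    rcases hx0.1.eq_or_lt with h | h
    · rw [← h] at hψ0; linarith
    · exact h
  have hx0b : x0 < b := by
    rcases hx0.2.eq_or_lt with h | h
    · rw [h] at hψ0; linarith
    · exact h
  have hderiv : HasDerivAt ψ (τ * j s x0 - m) x0 := by
    have h1 : HasDerivAt (L s a b) m x0 := by
      have := ((hasDerivAt_id x0).sub_const a).const_mul m |>.const_add (J s a)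
      refine this.congr_deriv (by simp)
    exact ((hasDerivAt_J s x0 hs hs2).const_mul τ).sub h1
  have hzero : τ * j s x0 - m = 0 := by
    have hloc : IsLocalMax ψ x0 := hmax.isLocalMax (Icc_mem_nhds hx0a hx0b)
    exact hloc.hasDerivAt_eq_zero hderiv
  have hquad : ∀ y, ψ x0 - τ * (y - x0) ^ 2 / s ^ 2 ≤ ψ y := by
    intro y
    have h1 := le_J s x0 y hs hs2
    have h2 := mul_le_mul_of_nonneg_left h1 hτ0.le
    show τ * J s x0 - L s a b x0 - τ * (y - x0) ^ 2 / s ^ 2 ≤ τ * J s y - L s a b y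
    rw [hLd x0 y]
    have h3 : τ * (J s x0 + j s x0 * (y - x0) - (y - x0) ^ 2 / s ^ 2) =
      τ * J s x0 + τ * j s x0 * (y - x0) - τ * (y - x0) ^ 2 / s ^ 2 := by ring
    have h4 : τ * j s x0 = m := by linarith
    rw [h3, h4] at h2
    linarith
  have hw0 : 0 < 1 - c / τ := by
    rw [sub_pos, div_lt_one hτ0]; exact hcτ
  set R := s * √(1 - c / τ) with hR
  have hRpos : 0 < R := mul_pos hs (Real.sqrt_pos.2 hw0)
  have hR2 : τ * R ^ 2 / s ^ 2 = τ - c := by
    rw [hR, mul_pow, Real.sq_sqrt hw0.le]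
    field_simp
  have hposR : ∀ y, |y - x0| < R → 0 < ψ y := by
    intro y hy
    have h1 := hquad y
    have h2 : (y - x0) ^ 2 < R ^ 2 := by
      rw [← sq_abs]
      exact pow_lt_pow_left₀ hy (abs_nonneg _) (by norm_num)
    have h3 : τ * (y - x0) ^ 2 / s ^ 2 < τ * R ^ 2 / s ^ 2 := by gcongr
    linarith
  have haR : a ≤ x0 - R := by
    by_contra hcon
    have := hposR a (by rw [abs_lt]; constructor <;> linarith)
    linarith
  have hbR : x0 + R ≤ b := by
    by_contra hcon
    have := hposR b (by rw [abs_lt]; constructor <;> linarith)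
    linarith
  have hsub : Ioo (x0 - R) (x0 + R) ⊆ {y | r < rho s a b y} ∩ Ioc a b := by
    intro y hy
    have hyI : y ∈ Icc a b := ⟨by linarith [hy.1], by linarith [hy.2]⟩
    refine ⟨?_, by linarith [hy.1], by linarith [hy.2]⟩
    have h1 : 0 < τ * J s y - L s a b y := hposR y (by rw [abs_lt]; constructor <;> linarith [hy.1, hy.2])
    have h2 := L_pos s a b y hs hs2 ha hab hb hyI
    have h3 := J_pos s y hs hs2 (by linarith [hyI.1]) (by linarith [hyI.2])
    show r < √(1 - (L s a b y / J s y) ^ 2)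
    apply Real.lt_sqrt_of_sq_lt
    have h4 : L s a b y / J s y < τ := by
      rw [div_lt_iff₀ h3]; linarith
    have h5 : 0 < L s a b y / J s y := div_pos h2 h3
    nlinarith
  have hvol : volume (Ioo (x0 - R) (x0 + R)) = ENNReal.ofReal (2 * s * √(1 - c / τ)) := by
    rw [Real.volume_Ioo]
    congr 1
    rw [hR]; ring
  rw [← hvol]
  refine (measure_mono hsub).trans ?_
  exact Measure.le_restrict_apply _ _

theorem lemma1 (s a b x : ℝ) (hs : 0 < s) (hs2 : s ≤ 1 / 2) (ha : 0 < a) (hab : a < b)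
    (hb : b < 1) (hx : x ∈ Icc a b) (hM : 0 < J s x - L s a b x) :
    2 * s * h (1 - (J s x - L s a b x)) ≤ ∫ y in a..b, rho s a b y := by
  set c := 1 - (J s x - L s a b x) with hc
  have hLx := L_pos s a b x hs hs2 ha hab hb hx
  have hJx := J_le_one s x
  have hc0 : 0 < c := by linarith
  have hc1 : c < 1 := by linarith
  have hρ0 : ∀ y, 0 ≤ rho s a b y := fun y => Real.sqrt_nonneg _
  have hint : IntervalIntegrable (rho s a b) volume a b := by
    apply ContinuousOn.intervalIntegrable
    rw [uIcc_of_le hab.le]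
    exact continuousOn_rho s a b hs hs2 ha hb
  have hint' : Integrable (rho s a b) (volume.restrict (Ioc a b)) :=
    (intervalIntegrable_iff_integrableOn_Ioc_of_le hab.le).1 hint
  rw [intervalIntegral.integral_of_le hab.le]
  have h0 : 0 ≤ ∫ y in Ioc a b, rho s a b y := integral_nonneg (fun y => hρ0 y)
  rw [← ENNReal.ofReal_le_ofReal_iff h0, ofReal_integral_eq_lintegral_ofReal hint'
    (Eventually.of_forall hρ0), lintegral_eq_lintegral_meas_lt _ (Eventually.of_forall hρ0)
    hint'.aestronglyMeasurable.aemeasurable]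
  set ℓ := √(1 - c ^ 2) with hℓ
  have hℓ0 : 0 ≤ ℓ := Real.sqrt_nonneg _
  set G : ℝ → ℝ := fun r => 2 * s * √(1 - c / √(1 - r ^ 2)) with hG
  have hGc : ContinuousOn G (Icc 0 ℓ) := by
    intro r hr
    apply ContinuousAt.continuousWithinAt
    have h1 : r ^ 2 ≤ 1 - c ^ 2 := by
      have : ℓ ^ 2 = 1 - c ^ 2 := Real.sq_sqrt (by nlinarith)
      rw [← this]
      exact pow_le_pow_left₀ hr.1 hr.2 2
    have h2 : √(1 - r ^ 2) ≠ 0 := (Real.sqrt_pos.2 (by nlinarith [sq_pos_of_pos hc0])).ne'
    show ContinuousAt (fun r => 2 * s * √(1 - c / √(1 - r ^ 2))) r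
    fun_prop (disch := assumption)
  have hGint : IntegrableOn G (Ioo 0 ℓ) :=
    (hGc.integrableOn_Icc).mono_set Ioo_subset_Icc_self
  have hGi : 2 * s * h c = ∫ r in Ioo 0 ℓ, G r := by
    unfold h
    rw [← intervalIntegral.integral_const_mul, intervalIntegral.integral_of_le hℓ0,
      integral_Ioc_eq_integral_Ioo]
  rw [hGi, ofReal_integral_eq_lintegral_ofReal hGint
    (Eventually.of_forall (fun r => by
      show 0 ≤ 2 * s * √(1 - c / √(1 - r ^ 2))
      positivity))]
  refine le_trans ?_ (lintegral_mono_set (Ioo_subset_Ioi_self : Ioo 0 ℓ ⊆ Ioi 0))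
  apply setLIntegral_mono' measurableSet_Ioo
  intro r hr
  exact level s a b x r hs hs2 ha hab hb hx hM hr.1 hr.2

end Pool.Agent.H48R3.CP
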