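import Pool.Agent.H48R3.CP.Field

set_option autoImplicit false

namespace Pool.Agent.H48R3.CP

open Set Filter Topology MeasureTheory Metric

variable {d : ℕ}

/-- the affine contraction -/
def T (d : ℕ) (δ : ℝ) (x : Fin d → ℝ) : Fin d → ℝ := (fun _ => 2 * δ) + (1 - 4 * δ) • x

theorem T_mem (δ : ℝ) (hδ : 0 < δ) (hδ2 : δ < 1 / 8) (x : Fin d → ℝ) :
    T d δ x ∈ Icc (fun _ : Fin d => 2 * δ) (fun _ => 1 - 2 * δ) ↔ x ∈ Icc (0 : Fin d → ℝ) 1 := by
  have hl : 0 < 1 - 4 * δ := by linarith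
  simp only [mem_Icc, Pi.le_def, T, Pi.add_apply, Pi.smul_apply, smul_eq_mul, Pi.zero_apply,
    Pi.one_apply]
  constructor
  · rintro ⟨h1, h2⟩
    refine ⟨fun i => ?_, fun i => ?_⟩
    · have := h1 i
      by_contra hc
      push Not at hc
      nlinarith
    · have := h2 i
      by_contra hc
      push Not at hc
      nlinarith
  · rintro ⟨h1, h2⟩
    refine ⟨fun i => ?_, fun i => ?_⟩
    · have := mul_nonneg hl.le (h1 i)
      linarith
    · have := mul_le_mul_of_nonneg_left (h2 i) hl.le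
      linarith

theorem change_var (h : (Fin d → ℝ) → ℝ) (δ : ℝ) (hδ : 0 < δ) (hδ2 : δ < 1 / 8) :
    ∫ x in Icc (0 : Fin d → ℝ) 1, h (T d δ x) =
      ((1 - 4 * δ) ^ d)⁻¹ * ∫ y in Icc (fun _ : Fin d => 2 * δ) (fun _ => 1 - 2 * δ), h y := by
  have hl : 0 < 1 - 4 * δ := by linarith
  set Q' : Set (Fin d → ℝ) := Icc (fun _ => 2 * δ) (fun _ => 1 - 2 * δ) with hQ'
  set F : (Fin d → ℝ) → ℝ := Q'.indicator h with hF
  have h1 : ∫ x in Icc (0 : Fin d → ℝ) 1, h (T d δ x) = ∫ x, F ((fun _ => 2 * δ) + (1 - 4 * δ) • x) := by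
    rw [← integral_indicator measurableSet_Icc]
    congr 1
    funext x
    have hx := T_mem δ hδ hδ2 x
    by_cases hxm : x ∈ Icc (0 : Fin d → ℝ) 1
    · rw [indicator_of_mem hxm, hF]
      have := hx.2 hxm
      rw [indicator_of_mem (show (fun _ => 2 * δ) + (1 - 4 * δ) • x ∈ Q' from this)]
      rfl
    · rw [indicator_of_notMem hxm, hF]
      have : ¬ ((fun _ => 2 * δ) + (1 - 4 * δ) • x ∈ Q') := fun h => hxm (hx.1 h)
      rw [indicator_of_notMem this]
  rw [h1, Measure.integral_comp_smul volume (fun z => F ((fun _ => 2 * δ) + z)),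
    integral_add_left_eq_self F, hF, integral_indicator measurableSet_Icc]
  rw [Module.finrank_fintype_fun_eq_card, Fintype.card_fin, abs_of_pos (by positivity), smul_eq_mul]

theorem g_bounds (E : Set (Fin d → ℝ)) (hE : MeasurableSet E) (hEU : E ⊆ U d) (δ : ℝ)
    (hδ : 0 < δ) (x : Fin d → ℝ) :
    0 ≤ conv (E.indicator (fun _ => (1:ℝ))) (eta d δ hδ) x ∧
      conv (E.indicator (fun _ => (1:ℝ))) (eta d δ hδ) x ≤ 1 := by
  have hη0 : ∀ x, 0 ≤ eta d δ hδ x := fun x => (bump d δ hδ).nonneg_normed x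
  have hη1 : ∫ x, eta d δ hδ x = 1 := (bump d δ hδ).integral_normed
  have hηi : Integrable (fun y => eta d δ hδ (x - y)) := by
    have : Integrable (eta d δ hδ) := (bump d δ hδ).integrable_normed
    exact this.comp_sub_left x
  have hint1 : ∫ y, eta d δ hδ (x - y) = 1 := by
    rw [integral_sub_left_eq_self (fun y => eta d δ hδ y) volume x, hη1]
  have hu0 : ∀ y, 0 ≤ E.indicator (fun _ => (1:ℝ)) y := fun y => indicator_nonneg (by simp) y
  have hu1 : ∀ y, E.indicator (fun _ => (1:ℝ)) y ≤ 1 := fun y =>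
    indicator_le_self' (f := fun _ => (1:ℝ)) (by simp) y
  constructor
  · exact integral_nonneg fun y => mul_nonneg (hu0 y) (hη0 _)
  · refine le_trans ?_ hint1.le
    apply integral_mono_of_nonneg (Eventually.of_forall fun y => mul_nonneg (hu0 y) (hη0 _)) hηi
    refine Eventually.of_forall fun y => ?_
    show E.indicator (fun _ => (1:ℝ)) y * eta d δ hδ (x - y) ≤ eta d δ hδ (x - y)
    have := mul_le_mul_of_nonneg_right (hu1 y) (hη0 (x - y))
    linarith

/-- The rescaled mollification. -/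
noncomputable def fd (E : Set (Fin d → ℝ)) (δ : ℝ) (hδ : 0 < δ) (x : Fin d → ℝ) : ℝ :=
  δ + (1 - 2 * δ) * conv (E.indicator (fun _ => (1:ℝ))) (eta d δ hδ) (T d δ x)

theorem main_ineq (E : Set (Fin d → ℝ)) (hE : MeasurableSet E) (hEU : E ⊆ U d) (δ : ℝ)
    (hδ : 0 < δ) (hδ2 : δ < 1 / 8) :
    (1 - 4 * δ) ^ d * (J s0 (∫ x in Icc (0 : Fin d → ℝ) 1, fd E δ hδ x) -
        ∫ x in Icc (0 : Fin d → ℝ) 1, J s0 (fd E δ hδ x)) ≤
      ∫ y in Icc (fun _ : Fin d => 2 * δ) (fun _ => 1 - 2 * δ),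
          √(∑ i, D (conv (E.indicator (fun _ => (1:ℝ))) (eta d δ hδ)) i y ^ 2) := by
  have hl : 0 < 1 - 4 * δ := by linarith
  set g := conv (E.indicator (fun _ => (1:ℝ))) (eta d δ hδ) with hg
  have hgd : ContDiff ℝ 1 g := contDiff_conv _ _ (int_ind E hE hEU).locallyIntegrable
    (eta_contDiff δ hδ) (eta_supp δ hδ)
  have hb := g_bounds E hE hEU δ hδ
  rw [← hg] at hb
  set f := fd E δ hδ with hf
  have hfe : ∀ x, f x = δ + (1 - 2 * δ) * g (T d δ x) := fun x => rfl
  have hTd : ContDiff ℝ 1 (T d δ) := by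
    unfold T
    fun_prop
  have hfd : ContDiff ℝ 1 f := by
    have : f = fun x => δ + (1 - 2 * δ) * g (T d δ x) := rfl
    rw [this]
    exact contDiff_const.add (contDiff_const.mul (hgd.comp hTd))
  have hf0 : ∀ x, 0 < f x := fun x => by
    rw [hfe]
    have := mul_nonneg (by linarith : 0 ≤ 1 - 2 * δ) (hb (T d δ x)).1
    linarith
  have hf1 : ∀ x, f x < 1 := fun x => by
    rw [hfe]
    have := mul_le_mul_of_nonneg_left (hb (T d δ x)).2 (by linarith : 0 ≤ 1 - 2 * δ)
    linarith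
  have hD : ∀ i x, D f i x = (1 - 2 * δ) * ((1 - 4 * δ) * D g i (T d δ x)) := by
    intro i x
    have h1 : HasFDerivAt (T d δ) ((1 - 4 * δ) • ContinuousLinearMap.id ℝ (Fin d → ℝ)) x := by
      exact ((hasFDerivAt_id x).const_smul (1 - 4 * δ)).const_add _
    have h2 : HasFDerivAt g (fderiv ℝ g (T d δ x)) (T d δ x) :=
      (hgd.differentiable (by norm_num) _).hasFDerivAt
    have h3 := ((h2.comp x h1).const_mul (1 - 2 * δ)).const_add δ
    have h4 : HasFDerivAt f _ x := h3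
    unfold D
    rw [h4.fderiv]
    simp
  have ht := tensor d f hfd hf0 hf1
  have hfc := hfd.continuous
  have hJc := continuous_J s0
  have hDc : ∀ i, Continuous (D f i) := fun i => continuous_D f hfd i
  have hI : ∀ (w : (Fin d → ℝ) → ℝ), Continuous w → IntegrableOn w (Icc (0 : Fin d → ℝ) 1) :=
    fun w hw => hw.continuousOn.integrableOn_compact isCompact_Icc
  have hle : ∫ x in Icc (0 : Fin d → ℝ) 1, √(J s0 (f x) ^ 2 + ∑ i, D f i x ^ 2) ≤
      (∫ x in Icc (0 : Fin d → ℝ) 1, J s0 (f x)) +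
        ∫ x in Icc (0 : Fin d → ℝ) 1, √(∑ i, D f i x ^ 2) := by
    rw [← integral_add (hI (fun x => J s0 (f x)) (by fun_prop)) (hI _ (by fun_prop))]
    apply integral_mono (hI _ (by fun_prop)) ((hI (fun x => J s0 (f x)) (by fun_prop)).add (hI _ (by fun_prop)))
    intro x
    show √(J s0 (f x) ^ 2 + ∑ i, D f i x ^ 2) ≤ J s0 (f x) + √(∑ i, D f i x ^ 2)
    have hJ0 := J_nonneg s0 (f x) s0_pos s0_le (hf0 x).le (hf1 x).le
    have hs0 : 0 ≤ ∑ i, D f i x ^ 2 := Finset.sum_nonneg fun i _ => sq_nonneg _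
    rw [Real.sqrt_le_left (by positivity)]
    have := Real.sq_sqrt hs0
    have h5 : 0 ≤ J s0 (f x) * √(∑ i, D f i x ^ 2) := by positivity
    nlinarith
  have hgrad : ∫ x in Icc (0 : Fin d → ℝ) 1, √(∑ i, D f i x ^ 2) =
      (1 - 2 * δ) * (1 - 4 * δ) * (((1 - 4 * δ) ^ d)⁻¹ *
        ∫ y in Icc (fun _ : Fin d => 2 * δ) (fun _ => 1 - 2 * δ), √(∑ i, D g i y ^ 2)) := by
    rw [← change_var (fun y => √(∑ i, D g i y ^ 2)) δ hδ hδ2, ← integral_const_mul]
    congr 1
    funext x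
    have : ∑ i, D f i x ^ 2 = ((1 - 2 * δ) * (1 - 4 * δ)) ^ 2 * ∑ i, D g i (T d δ x) ^ 2 := by
      rw [Finset.mul_sum]
      congr 1
      funext i
      rw [hD]; ring
    have hp : 0 ≤ (1 - 2 * δ) * (1 - 4 * δ) := mul_nonneg (by linarith) (by linarith)
    rw [this, Real.sqrt_mul (by positivity), Real.sqrt_sq hp]
  set I := ∫ y in Icc (fun _ : Fin d => 2 * δ) (fun _ => 1 - 2 * δ), √(∑ i, D g i y ^ 2) with hIdef
  have hI0 : 0 ≤ I := integral_nonneg fun x => Real.sqrt_nonneg _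
  have hpow : 0 < (1 - 4 * δ) ^ d := by positivity
  have h6 : (1 - 2 * δ) * (1 - 4 * δ) ≤ 1 := by nlinarith
  have h7 : (1 - 2 * δ) * (1 - 4 * δ) * (((1 - 4 * δ) ^ d)⁻¹ * I) ≤ ((1 - 4 * δ) ^ d)⁻¹ * I := by
    have : 0 ≤ ((1 - 4 * δ) ^ d)⁻¹ * I := by positivity
    nlinarith
  have h8 : J s0 (∫ x in Icc (0 : Fin d → ℝ) 1, f x) - ∫ x in Icc (0 : Fin d → ℝ) 1, J s0 (f x) ≤
      ((1 - 4 * δ) ^ d)⁻¹ * I := by linarith
  calc _ ≤ (1 - 4 * δ) ^ d * (((1 - 4 * δ) ^ d)⁻¹ * I) := mul_le_mul_of_nonneg_left h8 hpow.le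
    _ = I := by field_simp

/-- the sequence of radii -/
noncomputable def dl (n : ℕ) : ℝ := 1 / (16 * ((n : ℝ) + 1))

theorem dl_pos (n : ℕ) : 0 < dl n := by unfold dl; positivity

theorem dl_lt (n : ℕ) : dl n < 1 / 8 := by
  unfold dl
  rw [div_lt_div_iff₀ (by positivity) (by norm_num)]
  have : (0:ℝ) ≤ n := Nat.cast_nonneg n
  linarith

theorem dl_tendsto : Tendsto dl atTop (𝓝 0) := by
  have h := tendsto_one_div_add_atTop_nhds_zero_nat (𝕜 := ℝ)
  have h2 := h.const_mul (1 / 16 : ℝ)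
  rw [mul_zero] at h2
  refine h2.congr fun n => ?_
  unfold dl
  field_simp

theorem ae_lim (E : Set (Fin d → ℝ)) (hE : MeasurableSet E) (hEU : E ⊆ U d) :
    ∀ᵐ x ∂(volume.restrict (Icc (0 : Fin d → ℝ) 1)),
      Tendsto (fun n => fd E (dl n) (dl_pos n) x) atTop (𝓝 (E.indicator (fun _ => (1:ℝ)) x)) := by
  set u : (Fin d → ℝ) → ℝ := E.indicator (fun _ => (1:ℝ)) with hu
  have hui : Integrable u := int_ind E hE hEU
  have hae := IsUnifLocDoublingMeasure.ae_tendsto_average_norm_sub (μ := (volume : Measure (Fin d → ℝ)))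
    hui.locallyIntegrable 2
  rw [ae_restrict_iff' measurableSet_Icc]
  filter_upwards [hae] with x hx hxQ
  have hdl : Tendsto dl atTop (𝓝[>] 0) :=
    tendsto_nhdsWithin_iff.2 ⟨dl_tendsto, Eventually.of_forall fun n => dl_pos n⟩
  have havg := hx (fun n => T d (dl n) x) dl hdl (Eventually.of_forall fun n => by
    rw [mem_closedBall, dist_pi_le_iff (by have := dl_pos n; positivity)]
    intro i
    have h1 := hxQ.1 i
    have h2 := hxQ.2 i
    have h3 := dl_pos n
    simp only [Pi.zero_apply, Pi.one_apply] at h1 h2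
    rw [Real.dist_eq]
    simp only [T, Pi.add_apply, Pi.smul_apply, smul_eq_mul]
    rw [abs_le]
    constructor <;> nlinarith)
  have hlim := tendsto_integral_smul_of_tendsto_average_norm_sub
    (g := fun n y => eta d (dl n) (dl_pos n) (T d (dl n) x - y))
    ((2:ℝ) ^ (Module.finrank ℝ (Fin d → ℝ))) havg ?_ ?_ ?_ ?_
  · have h1 : Tendsto (fun n => conv u (eta d (dl n) (dl_pos n)) (T d (dl n) x)) atTop (𝓝 (u x)) := by
      refine hlim.congr fun n => ?_
      unfold conv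
      congr 1
      funext y
      rw [smul_eq_mul, mul_comm]
    have h2 : Tendsto (fun n => dl n + (1 - 2 * dl n) *
        conv u (eta d (dl n) (dl_pos n)) (T d (dl n) x)) atTop (𝓝 (0 + (1 - 2 * 0) * u x)) :=
      dl_tendsto.add ((tendsto_const_nhds.sub (dl_tendsto.const_mul 2)).mul h1)
    simp only [mul_zero, sub_zero, one_mul, zero_add] at h2
    exact h2
  · exact Eventually.of_forall fun n => hui.integrableOn
  · apply tendsto_const_nhds.congr fun n => ?_
    rw [integral_sub_left_eq_self (fun y => eta d (dl n) (dl_pos n) y) volume]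
    exact ((bump d (dl n) (dl_pos n)).integral_normed).symm
  · refine Eventually.of_forall fun n => ?_
    intro y hy
    have h1 : T d (dl n) x - y ∈ Function.support ((bump d (dl n) (dl_pos n)).normed volume) := hy
    rw [ContDiffBump.support_normed_eq, mem_ball_zero_iff] at h1
    rw [mem_closedBall, dist_comm, dist_eq_norm]
    exact h1.le
  · refine Eventually.of_forall fun n y => ?_
    have h0 : 0 ≤ eta d (dl n) (dl_pos n) (T d (dl n) x - y) :=
      (bump d (dl n) (dl_pos n)).nonneg_normed _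
    rw [abs_of_nonneg h0, Measure.addHaar_real_closedBall_center]
    refine (bump d (dl n) (dl_pos n)).normed_le_div_measure_closedBall_rOut volume 2 ?_ _
    show dl n ≤ 2 * (dl n / 2)
    linarith

theorem lower (E : Set (Fin d → ℝ)) (hE : MeasurableSet E) (hEU : E ⊆ U d) (t : ℝ)
    (ht : volume E = ENNReal.ofReal t) (ht0 : s0 ≤ t) (ht1 : t ≤ 1 - s0) (r : ℝ) (hr : r < 1) :
    ∃ φ : (Fin d → ℝ) → (Fin d → ℝ),
      ContDiff ℝ 1 φ ∧ HasCompactSupport φ ∧ tsupport φ ⊆ U d ∧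
      (∀ x, ∑ i, (φ x i) ^ 2 ≤ 1) ∧
      r < ∫ x in E, (∑ i, fderiv ℝ (fun y => φ y i) x (Pi.single i (1 : ℝ) : Fin d → ℝ)) := by
  set u : (Fin d → ℝ) → ℝ := E.indicator (fun _ => (1:ℝ)) with hu
  set μ := (volume : Measure (Fin d → ℝ)).restrict (Icc (0 : Fin d → ℝ) 1) with hμ
  have : IsFiniteMeasure μ := ⟨by rw [hμ, Measure.restrict_apply_univ, vol_Icc]; exact ENNReal.one_lt_top⟩
  have hlim := ae_lim E hE hEU
  have hJc := continuous_J s0
  have hfc : ∀ n, Continuous (fd E (dl n) (dl_pos n)) := by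
    intro n
    have hgd := contDiff_conv _ _ (int_ind E hE hEU).locallyIntegrable
      (eta_contDiff (dl n) (dl_pos n)) (eta_supp (dl n) (dl_pos n))
    have hgc := hgd.continuous
    have hT : Continuous (T d (dl n)) := by
      unfold T
      fun_prop
    unfold fd
    exact continuous_const.add (continuous_const.mul (hgc.comp hT))
  have hf01 : ∀ n x, 0 ≤ fd E (dl n) (dl_pos n) x ∧ fd E (dl n) (dl_pos n) x ≤ 1 := by
    intro n x
    have hb := g_bounds E hE hEU (dl n) (dl_pos n) (T d (dl n) x)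
    have h1 := dl_pos n
    have h2 := dl_lt n
    have h3 := mul_nonneg (by linarith : 0 ≤ 1 - 2 * dl n) hb.1
    have h4 := mul_le_mul_of_nonneg_left hb.2 (by linarith : 0 ≤ 1 - 2 * dl n)
    unfold fd
    constructor <;> linarith
  have hlim1 : Tendsto (fun n => ∫ x, fd E (dl n) (dl_pos n) x ∂μ) atTop (𝓝 (∫ x, u x ∂μ)) := by
    apply tendsto_integral_of_dominated_convergence (fun _ => (1:ℝ))
    · exact fun n => (hfc n).aestronglyMeasurable
    · exact integrable_const _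
    · intro n
      refine Eventually.of_forall fun x => ?_
      rw [Real.norm_eq_abs, abs_of_nonneg (hf01 n x).1]
      exact (hf01 n x).2
    · exact hlim
  have hlim2 : Tendsto (fun n => ∫ x, J s0 (fd E (dl n) (dl_pos n) x) ∂μ) atTop
      (𝓝 (∫ x, J s0 (u x) ∂μ)) := by
    apply tendsto_integral_of_dominated_convergence (fun _ => (1:ℝ))
    · exact fun n => (hJc.comp (hfc n)).aestronglyMeasurable
    · exact integrable_const _
    · intro n
      refine Eventually.of_forall fun x => ?_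
      have h5 := J_nonneg s0 _ s0_pos s0_le (hf01 n x).1 (hf01 n x).2
      rw [Real.norm_eq_abs, abs_of_nonneg h5]
      exact J_le_one _ _
    · filter_upwards [hlim] with x hx
      exact (hJc.tendsto _).comp hx
  have ht00 : 0 ≤ t := by linarith [s0_pos]
  have hu1 : ∫ x, u x ∂μ = t := by
    rw [hu, integral_indicator hE, hμ, Measure.restrict_restrict hE,
      inter_eq_self_of_subset_left (hEU.trans U_sub), setIntegral_const, Measure.real, ht,
      ENNReal.toReal_ofReal ht00]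
    simp
  have hu2 : ∫ x, J s0 (u x) ∂μ = 0 := by
    have : ∀ x, J s0 (u x) = 0 := by
      intro x
      by_cases hx : x ∈ E
      · simp only [hu, indicator_of_mem hx]
        exact J_one s0 s0_pos s0_le
      · simp only [hu, indicator_of_notMem hx]
        exact J_zero s0 s0_pos s0_le
    simp [this]
  rw [hu1] at hlim1
  rw [hu2] at hlim2
  have hJt : J s0 t = 1 := J_flat s0 t ht0 ht1
  have hlim3 : Tendsto (fun n => (1 - 4 * dl n) ^ d * (J s0 (∫ x, fd E (dl n) (dl_pos n) x ∂μ) -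
        ∫ x, J s0 (fd E (dl n) (dl_pos n) x) ∂μ)) atTop (𝓝 ((1 - 4 * 0) ^ d * (J s0 t - 0))) := by
    apply Tendsto.mul
    · exact (tendsto_const_nhds.sub (dl_tendsto.const_mul 4)).pow d
    · exact ((hJc.tendsto t).comp hlim1).sub hlim2
  rw [hJt] at hlim3
  simp only [mul_zero, sub_zero, one_pow, mul_one] at hlim3
  obtain ⟨n, hn⟩ := (hlim3.eventually (lt_mem_nhds hr)).exists
  obtain ⟨φ, h1, h2, h3, h4, h5⟩ := testfield E hE hEU (dl n) (dl_pos n) (dl_lt n)
  refine ⟨φ, h1, h2, h3, h4, ?_⟩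
  rw [h5]
  exact lt_of_lt_of_le hn (main_ineq E hE hEU (dl n) (dl_pos n) (dl_lt n))

end Pool.Agent.H48R3.CP
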