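import Pool.Agent.H48R3.CP.Tensor

set_option autoImplicit false

namespace Pool.Agent.H48R3.CP

open Set Filter Topology MeasureTheory Metric

variable {d : ℕ}

/-- bump of radius δ -/
noncomputable def bump (d : ℕ) (δ : ℝ) (hδ : 0 < δ) : ContDiffBump (0 : Fin d → ℝ) :=
  ⟨δ / 2, δ, by positivity, by linarith⟩

/-- convolution, as an integral. -/
noncomputable def conv (u η : (Fin d → ℝ) → ℝ) (x : Fin d → ℝ) : ℝ := ∫ y, u y * η (x - y)

theorem conv_eq (u η : (Fin d → ℝ) → ℝ) :
    conv u η = MeasureTheory.convolution u η (ContinuousLinearMap.mul ℝ ℝ) volume := by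
  funext x
  simp [conv, MeasureTheory.convolution]

theorem contDiff_conv (u η : (Fin d → ℝ) → ℝ) (hu : LocallyIntegrable u) (hη : ContDiff ℝ 1 η)
    (hc : HasCompactSupport η) : ContDiff ℝ 1 (conv u η) := by
  rw [conv_eq]
  exact_mod_cast hc.contDiff_convolution_right (n := 1) (ContinuousLinearMap.mul ℝ ℝ) hu hη

theorem D_conv (u η : (Fin d → ℝ) → ℝ) (hu : LocallyIntegrable u) (hη : ContDiff ℝ 1 η)
    (hc : HasCompactSupport η) (i : Fin d) (x : Fin d → ℝ) :
    D (conv u η) i x = conv u (D η i) x := by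
  rw [conv_eq, conv_eq]
  unfold D
  have h1 := (hc.hasFDerivAt_convolution_right (ContinuousLinearMap.mul ℝ ℝ) hu hη x).fderiv
  rw [h1, convolution_precompR_apply (ContinuousLinearMap.mul ℝ ℝ) hu (hc.fderiv ℝ)
    (hη.continuous_fderiv (by norm_num))]

theorem D_odd (η : (Fin d → ℝ) → ℝ) (hη : ContDiff ℝ 1 η) (he : ∀ x, η (-x) = η x) (i : Fin d)
    (x : Fin d → ℝ) : D η i (-x) = - D η i x := by
  unfold D
  have h1 : HasFDerivAt η (fderiv ℝ η (-x)) (-x) :=
    (hη.differentiable (by norm_num) _).hasFDerivAt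
  have h2 : HasFDerivAt (fun y : Fin d → ℝ => -y) (-ContinuousLinearMap.id ℝ (Fin d → ℝ)) x :=
    (hasFDerivAt_id x).neg
  have h3 := h1.comp x h2
  have h4 : (η ∘ fun y : Fin d → ℝ => -y) = η := by
    funext y; exact he y
  rw [h4] at h3
  rw [h3.fderiv]
  simp

theorem swap (u v K : (Fin d → ℝ) → ℝ) (hu : Integrable u) (hv : Integrable v)
    (hK : Continuous K) (C : ℝ) (hC : ∀ x, ‖K x‖ ≤ C) (hodd : ∀ x, K (-x) = - K x) :
    ∫ x, u x * conv v K x = - ∫ y, v y * conv u K y := by
  have hint : Integrable (Function.uncurry fun x y => u x * (v y * K (x - y)))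
      ((volume : Measure (Fin d → ℝ)).prod (volume : Measure (Fin d → ℝ))) := by
    have h1 : Integrable (fun p : (Fin d → ℝ) × (Fin d → ℝ) => u p.1 * v p.2)
      ((volume : Measure (Fin d → ℝ)).prod (volume : Measure (Fin d → ℝ))) := hu.mul_prod hv
    have h2 := h1.bdd_mul (c := C) (f := fun p : (Fin d → ℝ) × (Fin d → ℝ) => K (p.1 - p.2))
      (hK.comp (continuous_fst.sub continuous_snd)).aestronglyMeasurable
      (Eventually.of_forall fun p => hC _)
    refine h2.congr (Eventually.of_forall fun p => ?_)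
    simp only [Function.uncurry]
    ring
  have e1 : ∀ x, u x * conv v K x = ∫ y, u x * (v y * K (x - y)) := by
    intro x
    rw [conv, ← integral_const_mul]
  have e2 : ∀ y, v y * conv u K y = - ∫ x, u x * (v y * K (x - y)) := by
    intro y
    rw [conv, ← integral_const_mul, ← integral_neg]
    congr 1
    funext x
    have : K (y - x) = - K (x - y) := by rw [← hodd]; congr 1; abel
    rw [this]; ring
  simp only [e1, e2]
  rw [integral_neg, neg_neg, integral_integral_swap hint]

/-- averaging does not increase the norm -/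
theorem avg_norm (ψ : Fin d → (Fin d → ℝ) → ℝ) (η : (Fin d → ℝ) → ℝ)
    (hψ : ∀ i, Integrable (ψ i)) (hψ1 : ∀ y, ∑ i, ψ i y ^ 2 ≤ 1) (hη : Continuous η)
    (hηc : HasCompactSupport η) (hη0 : ∀ x, 0 ≤ η x) (hη1 : ∫ x, η x = 1) (x : Fin d → ℝ) :
    ∑ i, conv (ψ i) η x ^ 2 ≤ 1 := by
  obtain ⟨C, hC⟩ := hη.bounded_above_of_compact_support hηc
  have hηs : Integrable (fun y => η (x - y)) := by
    have := hη.integrable_of_hasCompactSupport hηc (μ := (volume : Measure (Fin d → ℝ)))
    exact this.comp_sub_left x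
  have hint1 : ∫ y, η (x - y) = 1 := by
    rw [integral_sub_left_eq_self (fun y => η y) volume x, hη1]
  have hint : ∀ i, Integrable (fun y => ψ i y * η (x - y)) := by
    intro i
    have := (hψ i).bdd_mul (c := C) (f := fun y => η (x - y))
      (hη.comp (continuous_const.sub continuous_id)).aestronglyMeasurable
      (Eventually.of_forall fun p => hC _)
    refine this.congr (Eventually.of_forall fun p => ?_)
    show η (x - p) * ψ i p = _
    ring
  set S := ∑ i, conv (ψ i) η x ^ 2 with hS
  have hS0 : 0 ≤ S := Finset.sum_nonneg fun i _ => sq_nonneg _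
  have h1 : S = ∫ y, (∑ i, conv (ψ i) η x * ψ i y) * η (x - y) := by
    have : ∀ y, (∑ i, conv (ψ i) η x * ψ i y) * η (x - y) =
        ∑ i, conv (ψ i) η x * (ψ i y * η (x - y)) := by
      intro y
      rw [Finset.sum_mul]
      congr 1
      funext i
      ring
    simp only [this]
    rw [integral_finsetSum]
    · rw [hS]
      congr 1
      funext i
      rw [integral_const_mul, sq]
      rfl
    · intro i _
      exact (hint i).const_mul _
  have h2 : ∀ y, (∑ i, conv (ψ i) η x * ψ i y) * η (x - y) ≤ √S * η (x - y) := by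
    intro y
    apply mul_le_mul_of_nonneg_right _ (hη0 _)
    apply Real.le_sqrt_of_sq_le
    have h3 := Finset.sum_mul_sq_le_sq_mul_sq Finset.univ (fun i => conv (ψ i) η x) (fun i => ψ i y)
    refine h3.trans ?_
    have h4 := mul_le_mul_of_nonneg_left (hψ1 y) hS0
    rw [mul_one] at h4
    exact h4
  have h5 : S ≤ √S := by
    calc S = ∫ y, (∑ i, conv (ψ i) η x * ψ i y) * η (x - y) := h1
      _ ≤ ∫ y, √S * η (x - y) := by
        apply integral_mono _ (hηs.const_mul _) h2
        have : (fun y => (∑ i, conv (ψ i) η x * ψ i y) * η (x - y)) =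
            fun y => ∑ i, conv (ψ i) η x * (ψ i y * η (x - y)) := by
          funext y
          rw [Finset.sum_mul]
          congr 1
          funext i
          ring
        rw [this]
        exact integrable_finsetSum _ fun i _ => (hint i).const_mul _
      _ = √S := by rw [integral_const_mul, hint1, mul_one]
  by_contra hcon
  push Not at hcon
  have h6 : √S < S := by
    rw [Real.sqrt_lt' (by linarith)]
    nlinarith
  linarith

end Pool.Agent.H48R3.CP
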