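import Pool.Agent.H48R3.CP.Layer

set_option autoImplicit false

namespace Pool.Agent.H48R3.CP

open Set Filter Topology MeasureTheory

/-- pointwise Cauchy–Schwarz -/
theorem pw (s a b y z : ℝ) (hs : 0 < s) (hs2 : s ≤ 1 / 2) (ha : 0 < a) (hab : a < b)
    (hb : b < 1) (hy : y ∈ Icc a b) :
    L s a b y + rho s a b y * |z| ≤ √(J s y ^ 2 + z ^ 2) := by
  have hJ := J_pos s y hs hs2 (by linarith [hy.1]) (by linarith [hy.2])
  have hL := L_pos s a b y hs hs2 ha hab hb hy
  have hLJ := L_le_J s a b y hs hs2 hab hy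
  apply Real.le_sqrt_of_sq_le
  have hu1 : L s a b y / J s y ≤ 1 := by rw [div_le_one hJ]; exact hLJ
  have hu0 : 0 ≤ L s a b y / J s y := by positivity
  have hρ : rho s a b y ^ 2 = 1 - (L s a b y / J s y) ^ 2 := by
    unfold rho
    rw [Real.sq_sqrt]
    nlinarith
  have hL2 : L s a b y = (L s a b y / J s y) * J s y := by field_simp
  have hz : |z| ^ 2 = z ^ 2 := sq_abs z
  rw [hL2]
  generalize L s a b y / J s y = u at *
  generalize rho s a b y = ρ at *
  generalize J s y = T at *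
  rw [← hz]
  generalize |z| = w at *
  have : ρ ^ 2 = 1 - u ^ 2 := hρ
  nlinarith [sq_nonneg (ρ * T - u * w)]

theorem cost_ge (s a b p q : ℝ) (hs : 0 < s) (hs2 : s ≤ 1 / 2) (ha : 0 < a) (hab : a < b)
    (hb : b < 1) (f f' : ℝ → ℝ) (hf : ∀ x, HasDerivAt f (f' x) x) (hf' : Continuous f')
    (hmem : ∀ x ∈ Icc (0:ℝ) 1, f x ∈ Icc a b) (hp : p ∈ Icc (0:ℝ) 1) (hq : q ∈ Icc (0:ℝ) 1)
    (hfp : f p = a) (hfq : f q = b) :
    L s a b (∫ x in (0:ℝ)..1, f x) + ∫ y in a..b, rho s a b y ≤
      ∫ x in (0:ℝ)..1, √(J s (f x) ^ 2 + f' x ^ 2) := by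
  have hfc : Continuous f := continuous_iff_continuousAt.2 fun x => (hf x).continuousAt
  have hρc : ContinuousOn (rho s a b) (Icc a b) := continuousOn_rho s a b hs hs2 ha hb
  have hρfc : ContinuousOn (fun x => rho s a b (f x)) (Icc (0:ℝ) 1) :=
    hρc.comp hfc.continuousOn hmem
  have h01 : (0:ℝ) ≤ 1 := by norm_num
  have hprodc : ContinuousOn (fun x => rho s a b (f x) * |f' x|) (Icc (0:ℝ) 1) :=
    hρfc.mul (hf'.abs).continuousOn
  have hLint : (∫ x in (0:ℝ)..1, L s a b (f x)) = L s a b (∫ x in (0:ℝ)..1, f x) := by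
    unfold L
    rw [intervalIntegral.integral_add, intervalIntegral.integral_const_mul,
      intervalIntegral.integral_sub]
    · simp
    · exact hfc.intervalIntegrable _ _
    · exact continuous_const.intervalIntegrable _ _
    · exact continuous_const.intervalIntegrable _ _
    · apply Continuous.intervalIntegrable; fun_prop
  have hsubst : (∫ y in a..b, rho s a b y) = ∫ x in p..q, rho s a b (f x) * f' x := by
    have huIcc : uIcc p q ⊆ Icc (0:ℝ) 1 := by
      rw [← uIcc_of_le h01]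
      exact uIcc_subset_uIcc (by rw [uIcc_of_le h01]; exact hp) (by rw [uIcc_of_le h01]; exact hq)
    have := intervalIntegral.integral_comp_mul_deriv' (a := p) (b := q) (f := f) (f' := f')
      (g := rho s a b) (fun x _ => hf x) hf'.continuousOn (hρc.mono (by
        rintro _ ⟨x, hx, rfl⟩
        exact hmem x (huIcc hx)))
    rw [hfp, hfq] at this
    rw [← this]
    rfl
  have hsub2 : (∫ x in p..q, rho s a b (f x) * f' x) ≤
      ∫ x in (0:ℝ)..1, rho s a b (f x) * |f' x| := by
    refine (le_abs_self _).trans ?_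
    rw [← Real.norm_eq_abs]
    refine (intervalIntegral.norm_integral_le_integral_norm_uIoc).trans ?_
    rw [intervalIntegral.integral_of_le h01]
    have hn : ∀ x, ‖rho s a b (f x) * f' x‖ = rho s a b (f x) * |f' x| := fun x => by
      rw [norm_mul, Real.norm_eq_abs, Real.norm_eq_abs,
        abs_of_nonneg (show 0 ≤ rho s a b (f x) from Real.sqrt_nonneg _)]
    simp only [hn]
    apply setIntegral_mono_set
    · exact (hprodc.integrableOn_Icc).mono_set Ioc_subset_Icc_self
    · exact Eventually.of_forall fun x => mul_nonneg (Real.sqrt_nonneg _) (abs_nonneg _)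
    · apply LE.le.eventuallyLE
      intro x hx
      rw [uIoc, mem_Ioc] at hx
      constructor
      · exact lt_of_le_of_lt (le_min hp.1 hq.1) hx.1
      · exact hx.2.trans (max_le hp.2 hq.2)
  rw [← hLint, hsubst]
  refine (add_le_add_right hsub2 _).trans ?_
  rw [← intervalIntegral.integral_add]
  · apply intervalIntegral.integral_mono_on h01
    · apply ContinuousOn.intervalIntegrable
      rw [uIcc_of_le h01]
      exact ((continuous_L s a b).comp hfc).continuousOn.add hprodc
    · apply Continuous.intervalIntegrable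
      have := continuous_J s
      fun_prop
    · intro x hx
      exact pw s a b (f x) (f' x) hs hs2 ha hab hb (hmem x hx)
  · apply Continuous.intervalIntegrable
    exact (continuous_L s a b).comp hfc
  · apply ContinuousOn.intervalIntegrable
    rw [uIcc_of_le h01]
    exact hprodc

/-- the parameter -/
noncomputable def s0 : ℝ := 499 / 1000

theorem s0_pos : 0 < s0 := by norm_num [s0]
theorem s0_le : s0 ≤ 1 / 2 := by norm_num [s0]

theorem algJ (m : ℝ) (hμ2 : 475 / 10000 < |m - 1 / 2|) :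
    J s0 m ≤ 1 - 4 * (|m - 1 / 2| - 1 / 1000) ^ 2 := by
  rcases le_total 0 (m - 1 / 2) with hs | hs
  · rw [abs_of_nonneg hs] at hμ2 ⊢
    unfold J s0
    rw [max_eq_right (by linarith), max_eq_left (by linarith)]
    have e : 1 - (0 / (499 / 1000 : ℝ)) ^ 2 - ((m - (1 - 499 / 1000)) / (499 / 1000)) ^ 2
      = 1 - (1000 / 499) ^ 2 * (m - 1 / 2 - 1 / 1000) ^ 2 := by ring
    rw [e]
    have := sq_nonneg (m - 1 / 2 - 1 / 1000)
    linarith
  · rw [abs_of_nonpos hs] at hμ2 ⊢
    unfold J s0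
    rw [max_eq_left (by linarith), max_eq_right (by linarith)]
    have e : 1 - ((499 / 1000 - m) / (499 / 1000)) ^ 2 - (0 / (499 / 1000 : ℝ)) ^ 2
      = 1 - (1000 / 499) ^ 2 * (-(m - 1 / 2) - 1 / 1000) ^ 2 := by ring
    rw [e]
    have := sq_nonneg (-(m - 1 / 2) - 1 / 1000)
    linarith

theorem algK (η : ℝ) (hη0 : 0 < η) (hη : η ≤ 15 / 1000) :
    19 / 100 * η ≤ (1 - η) ^ 2 * (1 - (1 - η) ^ 2) / 10 := by
  have h1 : (1 - (1 - η) ^ 2) = η * (2 - η) := by ring
  rw [h1]
  have h2 : 97 / 100 ≤ (1 - η) ^ 2 := by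
    have : 0 ≤ η ^ 2 := sq_nonneg η
    have e : (1 - η) ^ 2 = 1 - 2 * η + η ^ 2 := by ring
    linarith
  have h3 : (1985 / 1000 : ℝ) * η ≤ η * (2 - η) := by
    have : 0 ≤ η * (15 / 1000 - η) := mul_nonneg hη0.le (by linarith)
    linarith
  have h4 : 97 / 100 * ((1985 / 1000 : ℝ) * η) ≤ (1 - η) ^ 2 * (η * (2 - η)) :=
    mul_le_mul h2 h3 (by positivity) (by positivity)
  linarith

theorem algN (ν η : ℝ) (hν : 475 / 10000 < ν) (hη : η ≤ 15 / 1000) :
    ν * η ≤ (ν - 1 / 1000) ^ 2 := by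
  have h1 : ν * η ≤ ν * (15 / 1000) := mul_le_mul_of_nonneg_left hη (by linarith)
  have h2 : 0 ≤ (ν - 475 / 10000) * (ν - 475 / 10000) := mul_self_nonneg _
  have e : (ν - 1 / 1000) ^ 2 = ν ^ 2 - 2 / 1000 * ν + 1 / 1000 ^ 2 := by ring
  have e2 : (ν - 475 / 10000) * (ν - 475 / 10000) = ν ^ 2 - 95 / 1000 * ν + (475 / 10000) ^ 2 := by ring
  rw [e]
  norm_num at e2 ⊢
  linarith

theorem alg (a b m : ℝ) (ha : 0 < a) (hb : b < 1) (hd2 : 985 / 1000 ≤ b - a) :
    J s0 m ≤ 4 * m * (1 - m) - 4 * (m - a) * (b - m) +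
        (b - a) ^ 2 * (1 + (1 - (b - a) ^ 2) / 10) := by
  have key : ∀ e1 e2 : ℝ, 4 * m * (1 - m) - 4 * (m - e1) * ((1 - e2) - m) +
      ((1 - e2) - e1) ^ 2 * (1 + (1 - ((1 - e2) - e1) ^ 2) / 10) =
      1 + (e2 - e1) ^ 2 + 4 * (m - 1 / 2) * (e2 - e1) +
        (1 - (e1 + e2)) ^ 2 * (1 - (1 - (e1 + e2)) ^ 2) / 10 := by
    intro e1 e2; ring
  obtain ⟨e2, he2⟩ : ∃ e2, e2 = 1 - b := ⟨_, rfl⟩
  have hb' : b = 1 - e2 := by linarith
  subst hb'
  rw [key a e2]
  have hη0 : 0 < a + e2 := by linarith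
  have hη : a + e2 ≤ 15 / 1000 := by linarith
  have hgain := algK (a + e2) hη0 hη
  have habs : |4 * (m - 1 / 2) * (e2 - a)| ≤ 4 * |m - 1 / 2| * (a + e2) := by
    rw [abs_mul, abs_mul]
    have : |e2 - a| ≤ a + e2 := by rw [abs_le]; constructor <;> linarith
    have h4 : |(4:ℝ)| = 4 := by norm_num
    rw [h4]
    exact mul_le_mul_of_nonneg_left this (by positivity)
  have hlow := (abs_le.1 habs).1
  have hsqn := sq_nonneg (e2 - a)
  rcases le_or_gt |m - 1 / 2| (475 / 10000) with hμ2 | hμ2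
  · have h7 : 4 * |m - 1 / 2| * (a + e2) ≤ 19 / 100 * (a + e2) := by
      apply mul_le_mul_of_nonneg_right _ hη0.le
      linarith
    have := J_le_one s0 m
    linarith
  · have hJle := algJ m hμ2
    have h8 := algN |m - 1 / 2| (a + e2) hμ2 hη
    linarith

theorem oneD (f f' : ℝ → ℝ) (hf : ∀ x, HasDerivAt f (f' x) x) (hf' : Continuous f')
    (h0 : ∀ x ∈ Icc (0:ℝ) 1, 0 < f x) (h1 : ∀ x ∈ Icc (0:ℝ) 1, f x < 1) :
    J s0 (∫ x in (0:ℝ)..1, f x) ≤ ∫ x in (0:ℝ)..1, √(J s0 (f x) ^ 2 + f' x ^ 2) := by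
  have hfc : Continuous f := continuous_iff_continuousAt.2 fun x => (hf x).continuousAt
  have h01 : (0:ℝ) ≤ 1 := by norm_num
  have hne : (Icc (0:ℝ) 1).Nonempty := nonempty_Icc.2 h01
  obtain ⟨p, hp, hpmin⟩ := isCompact_Icc.exists_isMinOn hne hfc.continuousOn
  obtain ⟨q, hq, hqmax⟩ := isCompact_Icc.exists_isMaxOn hne hfc.continuousOn
  have hmem : ∀ x ∈ Icc (0:ℝ) 1, f x ∈ Icc (f p) (f q) := fun x hx => ⟨hpmin hx, hqmax hx⟩
  have hJ := continuous_J s0
  rcases (hmem q hq).1.eq_or_lt with hpq | hab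
  · -- constant case
    have hconst : ∀ x ∈ uIcc (0:ℝ) 1, f x = f p := by
      intro x hx
      rw [uIcc_of_le h01] at hx
      have := hmem x hx
      rw [← hpq] at this
      exact le_antisymm this.2 this.1
    have e1 : (∫ x in (0:ℝ)..1, f x) = f p := by
      rw [intervalIntegral.integral_congr (g := fun _ => f p) hconst]
      simp
    rw [e1]
    have e2 : (∫ x in (0:ℝ)..1, J s0 (f p)) = J s0 (f p) := by simp
    rw [← e2]
    apply intervalIntegral.integral_mono_on h01
    · exact continuous_const.intervalIntegrable _ _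
    · apply Continuous.intervalIntegrable; fun_prop
    · intro x hx
      have : f x = f p := hconst x (by rw [uIcc_of_le h01]; exact hx)
      rw [this]
      apply Real.le_sqrt_of_sq_le
      nlinarith [sq_nonneg (f' x)]
  set a := f p with haf
  set b := f q with hbf
  have ha : 0 < a := h0 p hp
  have hb : b < 1 := h1 q hq
  set m := ∫ x in (0:ℝ)..1, f x with hmdef
  have hm : m ∈ Icc a b := by
    constructor
    · have : (∫ x in (0:ℝ)..1, a) ≤ m := intervalIntegral.integral_mono_on h01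
        (continuous_const.intervalIntegrable _ _) (hfc.intervalIntegrable _ _)
        (fun x hx => (hmem x hx).1)
      simpa using this
    · have : m ≤ (∫ x in (0:ℝ)..1, b) := intervalIntegral.integral_mono_on h01
        (hfc.intervalIntegrable _ _) (continuous_const.intervalIntegrable _ _)
        (fun x hx => (hmem x hx).2)
      simpa using this
  have hcost := cost_ge s0 a b p q s0_pos s0_le ha hab hb f f' hf hf' hmem hp hq rfl rfl
  have hI0 : 0 ≤ ∫ y in a..b, rho s0 a b y :=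
    intervalIntegral.integral_nonneg hab.le fun y _ => Real.sqrt_nonneg _
  rcases le_or_gt (J s0 m - L s0 a b m) 0 with hM | hM
  · linarith
  have hLm := L_pos s0 a b m s0_pos s0_le ha hab hb hm
  have hJm := J_le_one s0 m
  rcases le_or_gt (J s0 m - L s0 a b m) (39 / 40) with hM2 | hM2
  · -- case A
    have h2 := lemma1 s0 a b m s0_pos s0_le ha hab hb hm hM
    have h3 := le_h (1 - (J s0 m - L s0 a b m)) (by linarith) (by linarith)
    set M := J s0 m - L s0 a b m with hMd
    have h4 : 2 * s0 * ((1 - (1 - M)) * (1 + (1 - M) / 10)) ≤ 2 * s0 * h (1 - M) :=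
      mul_le_mul_of_nonneg_left h3 (by linarith [s0_pos])
    have h5 : M ≤ 2 * s0 * ((1 - (1 - M)) * (1 + (1 - M) / 10)) := by
      have h6 : (1025 / 1000 : ℝ) - 1 ≤ 1 - M := by linarith
      unfold s0
      nlinarith
    linarith
  · -- case B
    have hchord := le_chord s0 a b m s0_pos s0_le hab hm
    have hM3 : 39 / 40 < (m - a) * (b - m) / s0 ^ 2 := by
      have : L s0 a b m = J s0 a + (J s0 b - J s0 a) / (b - a) * (m - a) := rfl
      linarith
    have hd : 39 / 40 * s0 ^ 2 * 4 < (b - a) ^ 2 := by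
      rw [lt_div_iff₀ (by have := s0_pos; positivity)] at hM3
      nlinarith [sq_nonneg ((m - a) - (b - m))]
    have hd2 : 985 / 1000 ≤ b - a := by
      by_contra hcon
      push Not at hcon
      have : (b - a) ^ 2 ≤ (985 / 1000) ^ 2 := pow_le_pow_left₀ (by linarith) hcon.le 2
      unfold s0 at hd
      norm_num at hd this
      linarith
    -- use the parabola
    have hhalf : (0:ℝ) < 1 / 2 := by norm_num
    have hcost2 := cost_ge (1/2) a b p q hhalf le_rfl ha hab hb f f' hf hf' hmem hp hq rfl rfl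
    have hle : (∫ x in (0:ℝ)..1, √(J (1/2) (f x) ^ 2 + f' x ^ 2)) ≤
        ∫ x in (0:ℝ)..1, √(J s0 (f x) ^ 2 + f' x ^ 2) := by
      have := continuous_J (1/2)
      apply intervalIntegral.integral_mono_on h01
      · apply Continuous.intervalIntegrable; fun_prop
      · apply Continuous.intervalIntegrable; fun_prop
      · intro x hx
        apply Real.sqrt_le_sqrt
        have h5 := J_half_le s0 (f x) s0_pos s0_le (h0 x hx).le (h1 x hx).le
        have h6 := J_nonneg (1/2) (f x) hhalf le_rfl (h0 x hx).le (h1 x hx).le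
        have := pow_le_pow_left₀ h6 h5 2
        linarith
    set xm := (a + b) / 2 with hxm
    have hxmem : xm ∈ Icc a b := ⟨by linarith, by linarith⟩
    have hM0 : J (1/2) xm - L (1/2) a b xm = (b - a) ^ 2 := by
      rw [L_conv _ _ _ _ hab]
      simp only [J_half, hxm]
      have : b - a ≠ 0 := by linarith
      field_simp
      ring
    have hLm2 : L (1/2) a b m = 4 * m * (1 - m) - 4 * (m - a) * (b - m) := by
      rw [L_conv _ _ _ _ hab]
      simp only [J_half]
      have : b - a ≠ 0 := by linarith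
      field_simp
      ring
    have hsq1 : (b - a) ^ 2 < 1 := by nlinarith
    have hsq0 : 0 < (b - a) ^ 2 := by nlinarith
    have h2 := lemma1 (1/2) a b xm hhalf le_rfl ha hab hb hxmem (by rw [hM0]; exact hsq0)
    rw [hM0] at h2
    have h3 := le_h (1 - (b - a) ^ 2) (by linarith) (by linarith)
    rw [hLm2] at hcost2
    have hc3 : 4 * m * (1 - m) - 4 * (m - a) * (b - m) +
        (b - a) ^ 2 * (1 + (1 - (b - a) ^ 2) / 10) ≤
        ∫ x in (0:ℝ)..1, √(J s0 (f x) ^ 2 + f' x ^ 2) := by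
      have : (1 - (1 - (b - a) ^ 2)) * (1 + (1 - (b - a) ^ 2) / 10) =
        (b - a) ^ 2 * (1 + (1 - (b - a) ^ 2) / 10) := by ring
      linarith
    refine le_trans ?_ hc3
    exact alg a b m ha hb hd2 

end Pool.Agent.H48R3.CP
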