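import Pool.Agent.H48R3.CP.OneD

set_option autoImplicit false

namespace Pool.Agent.H48R3.CP

open Set Filter Topology MeasureTheory

/-- cons map -/
def cs {n : ℕ} (t : ℝ) (x : Fin n → ℝ) : Fin (n + 1) → ℝ := Fin.cons t x

theorem continuous_cs {n : ℕ} : Continuous (fun p : ℝ × (Fin n → ℝ) => cs p.1 p.2) := by
  unfold cs
  exact Continuous.finCons continuous_fst continuous_snd

theorem vol_Icc (n : ℕ) : volume (Icc (0 : Fin n → ℝ) 1) = 1 := by
  rw [Real.volume_Icc_pi]
  simp

theorem fubini_cube {n : ℕ} (g : (Fin (n + 1) → ℝ) → ℝ) (hg : Continuous g) :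
    ∫ x in Icc (0 : Fin (n + 1) → ℝ) 1, g x =
      ∫ t in (0:ℝ)..1, ∫ x in Icc (0 : Fin n → ℝ) 1, g (cs t x) := by
  have hmp := (volume_preserving_piFinSuccAbove (fun _ : Fin (n + 1) => ℝ) 0).symm
  have hpre : (MeasurableEquiv.piFinSuccAbove (fun _ : Fin (n + 1) => ℝ) 0).symm ⁻¹'
      (Icc (0 : Fin (n + 1) → ℝ) 1) = Icc (0:ℝ) 1 ×ˢ Icc (0 : Fin n → ℝ) 1 := by
    ext ⟨t, x⟩
    simp only [mem_preimage, mem_Icc, mem_prod, Pi.le_def, Fin.forall_fin_succ]
    simp [MeasurableEquiv.piFinSuccAbove, Fin.insertNthEquiv]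
    tauto
  rw [← hmp.setIntegral_preimage_emb (MeasurableEquiv.measurableEmbedding _), hpre,
    Measure.volume_eq_prod]
  have e : ∀ p : ℝ × (Fin n → ℝ),
      g ((MeasurableEquiv.piFinSuccAbove (fun _ : Fin (n + 1) => ℝ) 0).symm p) =
      g (cs p.1 p.2) := by
    intro p
    congr 1
    simp [MeasurableEquiv.piFinSuccAbove, Fin.insertNthEquiv, cs]
  simp only [e]
  rw [setIntegral_prod (fun p : ℝ × (Fin n → ℝ) => g (cs p.1 p.2)),
    intervalIntegral.integral_of_le (by norm_num), integral_Icc_eq_integral_Ioc]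
  exact (hg.comp continuous_cs).continuousOn.integrableOn_compact (isCompact_Icc.prod isCompact_Icc)

/-- Minkowski -/
theorem minkowski {α : Type*} [MeasurableSpace α] (μ : Measure α) (A B : α → ℝ)
    (hA : Integrable A μ) (hB : Integrable B μ)
    (hAB : Integrable (fun x => √(A x ^ 2 + B x ^ 2)) μ) :
    √((∫ x, A x ∂μ) ^ 2 + (∫ x, B x ∂μ) ^ 2) ≤ ∫ x, √(A x ^ 2 + B x ^ 2) ∂μ := by
  set a := ∫ x, A x ∂μ with ha
  set b := ∫ x, B x ∂μ with hb
  set N := √(a ^ 2 + b ^ 2) with hN
  have hN2 : N ^ 2 = a ^ 2 + b ^ 2 := Real.sq_sqrt (by positivity)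
  have hN0 : 0 ≤ N := Real.sqrt_nonneg _
  have hI0 : 0 ≤ ∫ x, √(A x ^ 2 + B x ^ 2) ∂μ := integral_nonneg fun x => Real.sqrt_nonneg _
  rcases hN0.eq_or_lt with h | hpos
  · rw [← h]; exact hI0
  have h1 : N ^ 2 = ∫ x, (a * A x + b * B x) ∂μ := by
    rw [integral_add (hA.const_mul a) (hB.const_mul b), integral_const_mul, integral_const_mul,
      hN2, ← ha, ← hb]
    ring
  have h2 : (∫ x, (a * A x + b * B x) ∂μ) ≤ ∫ x, N * √(A x ^ 2 + B x ^ 2) ∂μ := by
    apply integral_mono ((hA.const_mul a).add (hB.const_mul b)) (hAB.const_mul N)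
    intro x
    show a * A x + b * B x ≤ N * √(A x ^ 2 + B x ^ 2)
    rw [hN, ← Real.sqrt_mul (by positivity)]
    apply Real.le_sqrt_of_sq_le
    nlinarith [sq_nonneg (a * B x - b * A x)]
  rw [integral_const_mul] at h2
  rw [← h1, sq] at h2
  exact le_of_mul_le_mul_left h2 hpos

/-- partial derivative -/
noncomputable def D {n : ℕ} (f : (Fin n → ℝ) → ℝ) (i : Fin n) (x : Fin n → ℝ) : ℝ :=
  fderiv ℝ f x (Pi.single i 1)

theorem continuous_D {n : ℕ} (f : (Fin n → ℝ) → ℝ) (hf : ContDiff ℝ 1 f) (i : Fin n) :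
    Continuous (D f i) := by
  unfold D
  exact (hf.continuous_fderiv (by norm_num)).clm_apply continuous_const

theorem hasDerivAt_cs {n : ℕ} (f : (Fin (n + 1) → ℝ) → ℝ) (hf : ContDiff ℝ 1 f)
    (x : Fin n → ℝ) (t : ℝ) : HasDerivAt (fun t => f (cs t x)) (D f 0 (cs t x)) t := by
  have h1 : HasDerivAt (fun t => cs t x) (Pi.single 0 1 : Fin (n + 1) → ℝ) t := by
    rw [hasDerivAt_pi]
    intro i
    refine Fin.cases ?_ (fun i => ?_) i
    · simp only [cs, Fin.cons_zero, Pi.single_eq_same]; exact hasDerivAt_id' t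
    · have : (Pi.single 0 1 : Fin (n + 1) → ℝ) i.succ = 0 := by simp
      simp only [cs, Fin.cons_succ, this]; exact hasDerivAt_const t (x i)
  have h2 := (hf.differentiable (by norm_num) (cs t x)).hasFDerivAt
  exact h2.comp_hasDerivAt t h1

theorem contDiff_slice {n : ℕ} (f : (Fin (n + 1) → ℝ) → ℝ) (hf : ContDiff ℝ 1 f) (t : ℝ) :
    ContDiff ℝ 1 (fun x : Fin n → ℝ => f (cs t x)) := by
  apply hf.comp
  rw [contDiff_pi]
  intro i
  refine Fin.cases ?_ (fun i => ?_) i
  · simp only [cs, Fin.cons_zero]; exact contDiff_const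
  · simp only [cs, Fin.cons_succ]; exact contDiff_apply ℝ ℝ i

theorem D_slice {n : ℕ} (f : (Fin (n + 1) → ℝ) → ℝ) (hf : ContDiff ℝ 1 f) (t : ℝ) (i : Fin n)
    (x : Fin n → ℝ) : D (fun x : Fin n → ℝ => f (cs t x)) i x = D f i.succ (cs t x) := by
  have h0 : ∀ k : Fin (n + 1), HasFDerivAt (fun x : Fin n → ℝ => cs t x k)
      ((Fin.cases 0 (fun k => ContinuousLinearMap.proj k) k : (Fin n → ℝ) →L[ℝ] ℝ)) x := by
    intro k
    refine Fin.cases ?_ (fun k => ?_) k
    · simp only [cs, Fin.cons_zero, Fin.cases_zero]; exact hasFDerivAt_const _ _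
    · simp only [cs, Fin.cons_succ, Fin.cases_succ]; exact hasFDerivAt_apply k x
  have h1 : HasFDerivAt (fun x : Fin n → ℝ => cs t x)
      (ContinuousLinearMap.pi fun k : Fin (n + 1) =>
      (Fin.cases 0 (fun k => ContinuousLinearMap.proj k) k : (Fin n → ℝ) →L[ℝ] ℝ)) x :=
    hasFDerivAt_pi.2 h0
  have h2 := (hf.differentiable (by norm_num) (cs t x)).hasFDerivAt
  have h3 := h2.comp x h1
  unfold D
  have h4 : fderiv ℝ (fun x : Fin n → ℝ => f (cs t x)) x = _ := h3.fderiv
  rw [h4, ContinuousLinearMap.comp_apply]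
  congr 1
  ext k
  refine Fin.cases ?_ (fun k => ?_) k
  · simp
  · simp only [ContinuousLinearMap.pi_apply, Fin.cases_succ, ContinuousLinearMap.proj_apply]
    simp [Pi.single_apply, Fin.succ_inj]

theorem tensor (n : ℕ) : ∀ f : (Fin n → ℝ) → ℝ, ContDiff ℝ 1 f → (∀ x, 0 < f x) →
    (∀ x, f x < 1) → J s0 (∫ x in Icc (0 : Fin n → ℝ) 1, f x) ≤
      ∫ x in Icc (0 : Fin n → ℝ) 1, √(J s0 (f x) ^ 2 + ∑ i, D f i x ^ 2) := by
  have hJc := continuous_J s0
  induction n with
  | zero =>
    intro f hf h0 h1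
    have e0 : ∀ g : (Fin 0 → ℝ) → ℝ, ∫ x in Icc (0 : Fin 0 → ℝ) 1, g x = g 0 := by
      intro g
      have : ∀ x, g x = g 0 := fun x => by rw [Subsingleton.elim x 0]
      simp_rw [this]
      rw [setIntegral_const, Measure.real, vol_Icc]
      simp
    rw [e0, e0]
    apply Real.le_sqrt_of_sq_le
    simp
  | succ n ih =>
    intro f hf h0 h1
    have hfc := hf.continuous
    have hDc := fun i => continuous_D f hf i
    have hcs := @continuous_cs n
    have hQc : IsCompact (Icc (0 : Fin n → ℝ) 1) := isCompact_Icc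
    -- slices
    set F : ℝ → ℝ := fun t => ∫ x in Icc (0 : Fin n → ℝ) 1, f (cs t x) with hF
    set F' : ℝ → ℝ := fun t => ∫ x in Icc (0 : Fin n → ℝ) 1, D f 0 (cs t x) with hF'
    have hF'c : Continuous F' :=
      continuous_parametric_integral_of_continuous (f := fun t x => D f 0 (cs t x))
        ((hDc 0).comp hcs) hQc
    have hcst : ∀ t, Continuous (fun x : Fin n → ℝ => cs t x) := fun t =>
      hcs.comp (Continuous.prodMk_right t)
    have hInt : ∀ (g : (Fin n → ℝ) → ℝ), Continuous g → IntegrableOn g (Icc (0 : Fin n → ℝ) 1) :=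
      fun g hg => hg.continuousOn.integrableOn_compact hQc
    have hFd : ∀ t, HasDerivAt F (F' t) t := by
      intro t
      obtain ⟨C, hC⟩ := ((isCompact_closedBall t 1).prod hQc).exists_bound_of_continuousOn
        (f := fun p : ℝ × (Fin n → ℝ) => D f 0 (cs p.1 p.2)) ((hDc 0).comp hcs).continuousOn
      refine (hasDerivAt_integral_of_dominated_loc_of_deriv_le (bound := fun _ => C)
        (s := Metric.closedBall t 1) (F := fun t x => f (cs t x))
        (F' := fun t x => D f 0 (cs t x)) (Metric.closedBall_mem_nhds t one_pos) ?_ ?_ ?_ ?_ ?_ ?_).2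
      · exact Eventually.of_forall fun u => (hfc.comp (hcst u)).aestronglyMeasurable
      · exact hInt _ (hfc.comp (hcst t))
      · exact ((hDc 0).comp (hcst t)).aestronglyMeasurable
      · rw [ae_restrict_iff' measurableSet_Icc]
        exact Eventually.of_forall fun x hx u hu => hC (u, x) ⟨hu, hx⟩
      · exact hInt _ continuous_const
      · exact Eventually.of_forall fun x u _ => hasDerivAt_cs f hf x u
    have hvol : (volume.restrict (Icc (0 : Fin n → ℝ) 1)) univ = 1 := by
      rw [Measure.restrict_apply_univ, vol_Icc]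
    have hpos : ∀ g : (Fin n → ℝ) → ℝ, Continuous g → (∀ x, 0 < g x) →
        0 < ∫ x in Icc (0 : Fin n → ℝ) 1, g x := by
      intro g hg hg0
      rw [integral_pos_iff_support_of_nonneg (fun x => (hg0 x).le) (hInt g hg)]
      have : Function.support g = univ := by
        ext x; simpa using (hg0 x).ne'
      rw [this, hvol]
      norm_num
    have hF0 : ∀ t, 0 < F t := fun t => hpos _ (hfc.comp (hcst t)) fun x => h0 _
    have hF1 : ∀ t, F t < 1 := by
      intro t
      have h2 := hpos (fun x => 1 - f (cs t x)) (continuous_const.sub (hfc.comp (hcst t)))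
        (fun x => by linarith [h1 (cs t x)])
      rw [integral_sub (hInt _ continuous_const) (hInt (fun x => f (cs t x)) (hfc.comp (hcst t)))] at h2
      have h3 : (∫ x in Icc (0 : Fin n → ℝ) 1, (1:ℝ)) = 1 := by
        rw [setIntegral_const, Measure.real, vol_Icc]; simp
      rw [h3] at h2
      show (∫ x in Icc (0 : Fin n → ℝ) 1, f (cs t x)) < 1
      linarith
    rw [fubini_cube f hfc]
    refine (oneD F F' hFd hF'c (fun t _ => hF0 t) (fun t _ => hF1 t)).trans ?_
    have hgc : Continuous fun x => √(J s0 (f x) ^ 2 + ∑ i, D f i x ^ 2) := by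
      fun_prop
    rw [fubini_cube _ hgc]
    apply intervalIntegral.integral_mono_on (by norm_num)
    · apply Continuous.intervalIntegrable
      have : Continuous F := continuous_iff_continuousAt.2 fun x => (hFd x).continuousAt
      fun_prop
    · apply Continuous.intervalIntegrable
      exact continuous_parametric_integral_of_continuous
        (f := fun t x => √(J s0 (f (cs t x)) ^ 2 + ∑ i, D f i (cs t x) ^ 2))
        (hgc.comp hcs) hQc
    intro t _
    -- the slice inequality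
    have hih := ih (fun x => f (cs t x)) (contDiff_slice f hf t) (fun x => h0 _) (fun x => h1 _)
    simp only [D_slice f hf t] at hih
    set A : (Fin n → ℝ) → ℝ := fun x => √(J s0 (f (cs t x)) ^ 2 + ∑ i : Fin n, D f i.succ (cs t x) ^ 2)
      with hA
    set B : (Fin n → ℝ) → ℝ := fun x => |D f 0 (cs t x)| with hB
    have hct := hcst t
    have hAc : Continuous A := by
      show Continuous fun x => √(J s0 (f (cs t x)) ^ 2 + ∑ i : Fin n, D f i.succ (cs t x) ^ 2)
      fun_prop
    have hBc : Continuous B := by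
      show Continuous fun x => |D f 0 (cs t x)|
      fun_prop
    have hABe : ∀ x, √(A x ^ 2 + B x ^ 2) = √(J s0 (f (cs t x)) ^ 2 + ∑ i, D f i (cs t x) ^ 2) := by
      intro x
      congr 1
      rw [hA, hB]
      simp only
      rw [Real.sq_sqrt (by positivity), sq_abs, Fin.sum_univ_succ]
      ring
    have hmk := minkowski (volume.restrict (Icc (0 : Fin n → ℝ) 1)) A B (hInt A hAc) (hInt B hBc)
      (hInt _ (by fun_prop))
    simp only [hABe] at hmk
    refine le_trans ?_ hmk
    apply Real.sqrt_le_sqrt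
    have hJ0 := J_nonneg s0 (F t) s0_pos s0_le (hF0 t).le (hF1 t).le
    have h5 : J s0 (F t) ^ 2 ≤ (∫ x in Icc (0 : Fin n → ℝ) 1, A x) ^ 2 :=
      pow_le_pow_left₀ hJ0 hih 2
    have h6 : F' t ^ 2 ≤ (∫ x in Icc (0 : Fin n → ℝ) 1, B x) ^ 2 := by
      rw [← sq_abs]
      apply pow_le_pow_left₀ (abs_nonneg _)
      exact abs_integral_le_integral_abs
    linarith

end Pool.Agent.H48R3.CP
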