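import Pool.Agent.H48R3.CP.Field

set_option autoImplicit false

namespace Pool.Agent.H48R3.CP

open Set Filter Topology MeasureTheory Metric

theorem upper (n : ℕ) (t : ℝ) (ht0 : 0 ≤ t) (ht1 : t ≤ 1) :
    ∃ E : Set (Fin (n + 1) → ℝ), MeasurableSet E ∧ E ⊆ U (n + 1) ∧
      volume E = ENNReal.ofReal t ∧
      ∀ φ : (Fin (n + 1) → ℝ) → (Fin (n + 1) → ℝ),
        ContDiff ℝ 1 φ → HasCompactSupport φ → tsupport φ ⊆ U (n + 1) →
        (∀ x, ∑ i, (φ x i) ^ 2 ≤ 1) →
        ∫ x in E, (∑ i, fderiv ℝ (fun y => φ y i) x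
          (Pi.single i (1 : ℝ) : Fin (n + 1) → ℝ)) ≤ 1 := by
  set b : Fin (n + 1) → ℝ := Fin.cons t (fun _ => 1) with hb
  have hb0 : b 0 = t := rfl
  have hbs : ∀ i : Fin n, b i.succ = 1 := fun i => rfl
  have hb1 : ∀ i, 0 ≤ b i ∧ b i ≤ 1 := by
    intro i
    refine Fin.cases ?_ (fun i => ?_) i
    · rw [hb0]; exact ⟨ht0, ht1⟩
    · rw [hbs]; norm_num
  refine ⟨Set.pi univ fun i => Ioo 0 (b i), MeasurableSet.univ_pi fun i => measurableSet_Ioo,
    ?_, ?_, ?_⟩
  · intro x hx i
    have := hx i (mem_univ i)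
    exact ⟨this.1, this.2.trans_le (hb1 i).2⟩
  · rw [Real.volume_pi_Ioo, Fin.prod_univ_succ, hb0]
    simp [hbs]
  · intro φ hφ hφc hφs hφ1
    have hae : (Set.pi univ fun i => Ioo 0 (b i)) =ᵐ[volume] Icc (0 : Fin (n + 1) → ℝ) b := by
      exact Measure.univ_pi_Ioo_ae_eq_Icc (f := (0 : Fin (n + 1) → ℝ)) (g := b)
    rw [setIntegral_congr_set hae]
    have hφi : ∀ i, ContDiff ℝ 1 (fun y => φ y i) := fun i => contDiff_pi.1 hφ i
    have hzero : ∀ y, y ∉ U (n + 1) → φ y = 0 := fun y hy =>
      image_eq_zero_of_notMem_tsupport fun h => hy (hφs h)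
    have hdiv := integral_divergence_of_hasFDerivAt_off_countable' (0 : Fin (n + 1) → ℝ) b
      (fun i => (hb1 i).1) (fun i y => φ y i) (fun i x => fderiv ℝ (fun y => φ y i) x) ∅
      countable_empty (fun i => (hφi i).continuous.continuousOn)
      (fun x _ i => ((hφi i).differentiable (by norm_num) x).hasFDerivAt) ?_
    · rw [hdiv, Fin.sum_univ_succ]
      have hback : ∀ (i : Fin (n + 1)) (x : Fin n → ℝ),
          φ (i.insertNth ((0 : Fin (n + 1) → ℝ) i) x) i = 0 := by
        intro i x
        rw [hzero]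
        · rfl
        · intro h
          have := (h i).1
          simp at this
      have hfront : ∀ (i : Fin n) (x : Fin n → ℝ),
          φ (i.succ.insertNth (b i.succ) x) i.succ = 0 := by
        intro i x
        rw [hzero]
        · rfl
        · intro h
          have := (h i.succ).2
          simp [hbs] at this
      simp only [hback, hfront, integral_zero, sub_zero, Finset.sum_const_zero, add_zero]
      have hface : Icc ((0 : Fin (n + 1) → ℝ) ∘ (0 : Fin (n + 1)).succAbove) (b ∘ (0 : Fin (n + 1)).succAbove) =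
          Icc (0 : Fin n → ℝ) 1 := by
        congr 1
      rw [hface]
      have h1 : ∫ x in Icc (0 : Fin n → ℝ) 1, (1:ℝ) = 1 := by
        rw [setIntegral_const, Measure.real, vol_Icc]; simp
      rw [← h1]
      have hcont : Continuous fun x : Fin n → ℝ => φ ((0 : Fin (n + 1)).insertNth (b 0) x) 0 := by
        apply (hφi 0).continuous.comp
        exact Continuous.finInsertNth 0 continuous_const continuous_id
      apply integral_mono (hcont.continuousOn.integrableOn_compact isCompact_Icc)
        (continuous_const.continuousOn.integrableOn_compact isCompact_Icc)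
      intro x
      show φ ((0 : Fin (n + 1)).insertNth (b 0) x) 0 ≤ 1
      have h2 := hφ1 ((0 : Fin (n + 1)).insertNth (b 0) x)
      have h3 := Finset.single_le_sum (f := fun i => φ ((0 : Fin (n + 1)).insertNth (b 0) x) i ^ 2)
        (fun i _ => sq_nonneg _) (Finset.mem_univ 0)
      have h4 : φ ((0 : Fin (n + 1)).insertNth (b 0) x) 0 ^ 2 ≤ 1 := h3.trans h2
      nlinarith [sq_nonneg (φ ((0 : Fin (n + 1)).insertNth (b 0) x) 0 - 1)]
    · refine ContinuousOn.integrableOn_compact isCompact_Icc ?_
      apply Continuous.continuousOn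
      apply continuous_finsetSum
      intro i _
      exact ((hφi i).continuous_fderiv (by norm_num)).clm_apply continuous_const

end Pool.Agent.H48R3.CP
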